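import Pool.Agent.Helper30.RED.Induct
import Pool.Agent.Helper63.TF.Final
import Pool.Agent.Helper33.GC.Sets

/-!
# The plane: reduction to the algebraic numbers
-/

set_option autoImplicit false

namespace Pool.Agent.Helper30.RED

open MvPolynomial
open Pool.Agent.Helper16 (Place IsFunctionField)
open Pool.Agent.Helper36 (step iter iter_zero iter_succ iter_succ' iter_add iter_map APSet
  APSet_univ)
open Pool.Agent.Helper38.TQ
open Pool.Agent.Helper30.TKN
open Pool.Agent.Helper33.GC (APSet_inter)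

/-- Over a function field, for unbounded heights, the return sets are unions of progressions. -/
theorem plane_unb {k : Type} [Field k] [IsAlgClosed k] [Algebra k ℂ] (K : IntermediateField k ℂ)
    (hK : IsFunctionField k K) {d : ℕ} {F : Fin 3 → MvPolynomial (Fin 3) K}
    (hF : IsEndo (ν := 2) d fun i => map (algebraMap K ℂ) (F i)) {x : Fin 3 → K} (hx : x ≠ 0)
    (hunb : ∀ B : ℤ, ∃ n, B < ht (ν := 2) k (iter F x n)) {g : MvPolynomial (Fin 3) K} {e : ℕ}
    (hg : g.IsHomogeneous e) : ∃ A, {n | eval (iter F x n) g = 0} = APSet A := by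
  have hF' : Pool.Agent.Helper30.TP.IsEndo d fun i => map (algebraMap K ℂ) (F i) :=
    ⟨hF.two_le, hF.hom, hF.nz⟩
  have hunb' : ∀ B : ℤ, ∃ n, B < Pool.Agent.Helper30.TP.ht k (iter F x n) := hunb
  obtain ⟨T, hT⟩ := Pool.Agent.Helper63.TF.k_dml hK hF' hx hunb' 1 one_ne_zero
    {map (algebraMap K ℂ) g} (by
      intro p hp
      rw [Set.mem_singleton_iff] at hp
      exact ⟨e, by rw [hp]; exact hg.map _⟩)
  refine ⟨T, ?_⟩
  have h1 : {n : ℕ | ∃ q ∈ T, ∃ k : ℕ, n = q.1 * k + q.2} = APSet T := rfl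
  rw [← h1, ← hT]
  ext n
  simp only [Set.mem_ofPred_eq, Set.mem_singleton_iff, forall_eq]
  have h2 := eval_iter_map (ν := 2) F x g n
  rw [← h2]
  have h3 : (fun i => (1 : ℂ) * algebraMap K ℂ (x i)) = fun i => algebraMap K ℂ (x i) := by
    funext i
    rw [one_mul]
  rw [h3]
  exact Iff.rfl

/-- **Induction for the plane.** A property of return sets which holds for finite unions of
progressions and which is closed under intersections holds for all maps of the class `Cl` if it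
holds over the algebraic numbers. -/
theorem plane_induct {d N : ℕ}
    (Cl : (Fin 3 → MvPolynomial (Fin 3) ℂ) → (Fin N → MvPolynomial (Fin 3) ℂ) → Prop)
    (R : Set ℕ → Prop) (hRa : ∀ A, R (APSet A)) (hRi : ∀ S T, R S → R T → R (S ∩ T))
    (hspec : ∀ (k : Type) [Field k] [IsAlgClosed k] [Algebra k ℂ] (K : IntermediateField k ℂ),
      IsFunctionField k K → ∀ (F : Fin 3 → MvPolynomial (Fin 3) K)
      (W : Fin N → MvPolynomial (Fin 3) K),
      (IsEndo (ν := 2) d fun i => map (algebraMap K ℂ) (F i)) →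
      Cl (fun i => map (algebraMap K ℂ) (F i)) (fun j => map (algebraMap K ℂ) (W j)) →
      ∃ A : Set (Place k K), A.Finite ∧ ∀ b ∉ A,
        ∀ (f : Fin 3 → MvPolynomial (Fin 3) k)
        (w : Fin N → MvPolynomial (Fin 3) k), GoodRed (ν := 2) d b F f →
          (∀ j, RedP (ν := 2) b (W j) (w j)) →
          Cl (fun i => map (algebraMap k ℂ) (f i)) (fun j => map (algebraMap k ℂ) (w j)))
    (halg : ∀ (f : Fin 3 → MvPolynomial (Fin 3) ℂ)
      (w : Fin N → MvPolynomial (Fin 3) ℂ) (a : Fin 3 → ℂ)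
      (g : MvPolynomial (Fin 3) ℂ) (e : ℕ), (∀ i m, IsAlgebraic ℚ ((f i).coeff m)) →
      (∀ j m, IsAlgebraic ℚ ((w j).coeff m)) → (∀ i, IsAlgebraic ℚ (a i)) →
      (∀ m, IsAlgebraic ℚ (g.coeff m)) → IsEndo (ν := 2) d f → Cl f w → a ≠ 0 →
      g.IsHomogeneous e → R {n | eval (iter f a n) g = 0})
    (f : Fin 3 → MvPolynomial (Fin 3) ℂ)
    (w : Fin N → MvPolynomial (Fin 3) ℂ) (a : Fin 3 → ℂ)
    (hf : IsEndo (ν := 2) d f) (hcl : Cl f w) (ha : a ≠ 0)
    {S : Set (MvPolynomial (Fin 3) ℂ)} (hS : ∀ g ∈ S, ∃ e, g.IsHomogeneous e) :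
    R {n | ∀ g ∈ S, eval (iter f a n) g = 0} := by
  have hRu : R Set.univ := by
    obtain ⟨T, hT⟩ := APSet_univ
    rw [hT]
    exact hRa T
  refine closed_of_forms (ν := 2) R hRu hRi (fun g e hg => ?_) hS
  refine induct (ν := 2) (d := d) Cl R hRu hRi hspec ?_ halg f w a g e hf hcl ha hg
  intro k _ _ _ K hK F W x g e hF _ hx hunb hg
  obtain ⟨A, hA⟩ := plane_unb K hK hF hx hunb hg
  rw [hA]
  exact hRa A

/-- The map `φ`, the point `z` and the form `γ` have algebraic coefficients. -/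
structure AlgData (d : ℕ) (φ : Fin 3 → MvPolynomial (Fin 3) ℂ) (z : Fin 3 → ℂ)
    (γ : MvPolynomial (Fin 3) ℂ) : Prop where
  endo : IsEndo (ν := 2) d φ
  ne : z ≠ 0
  hom : ∃ e, γ.IsHomogeneous e
  algf : ∀ i m, IsAlgebraic ℚ ((φ i).coeff m)
  algz : ∀ i, IsAlgebraic ℚ (z i)
  algg : ∀ m, IsAlgebraic ℚ (γ.coeff m)

/-- The set is the intersection of a finite union of progressions and of finitely many return
sets over the algebraic numbers. -/
def RedSet (d : ℕ) (T : Set ℕ) : Prop :=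
  ∃ (A : Finset (ℕ × ℕ)) (r : ℕ) (φ : Fin r → Fin 3 → MvPolynomial (Fin 3) ℂ)
    (z : Fin r → Fin 3 → ℂ) (γ : Fin r → MvPolynomial (Fin 3) ℂ),
    (∀ s, AlgData d (φ s) (z s) (γ s)) ∧
      T = APSet A ∩ {n | ∀ s, eval (iter (φ s) (z s) n) (γ s) = 0}

theorem redSet_AP (d : ℕ) (A : Finset (ℕ × ℕ)) : RedSet d (APSet A) := by
  refine ⟨A, 0, Fin.elim0, Fin.elim0, Fin.elim0, fun s => s.elim0, ?_⟩
  ext n
  constructor
  · intro h
    exact ⟨h, fun s => s.elim0⟩
  · intro h
    exact h.1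

theorem RedSet.inter {d : ℕ} {S T : Set ℕ} (hS : RedSet d S) (hT : RedSet d T) :
    RedSet d (S ∩ T) := by
  obtain ⟨A, r, φ, z, γ, h1, rfl⟩ := hS
  obtain ⟨A', r', φ', z', γ', h1', rfl⟩ := hT
  obtain ⟨U, hU⟩ := APSet_inter A A'
  refine ⟨U, r + r', Fin.append φ φ', Fin.append z z', Fin.append γ γ', ?_, ?_⟩
  · intro s
    refine Fin.addCases (fun i => ?_) (fun i => ?_) s
    · simp only [Fin.append_left]
      exact h1 i
    · simp only [Fin.append_right]
      exact h1' i
  · rw [← hU]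
    ext n
    constructor
    · rintro ⟨⟨h2, h3⟩, ⟨h4, h5⟩⟩
      refine ⟨⟨h2, h4⟩, fun s => ?_⟩
      refine Fin.addCases (fun i => ?_) (fun i => ?_) s
      · simp only [Fin.append_left]
        exact h3 i
      · simp only [Fin.append_right]
        exact h5 i
    · rintro ⟨⟨h2, h4⟩, h⟩
      refine ⟨⟨h2, fun i => ?_⟩, ⟨h4, fun i => ?_⟩⟩
      · have := h (Fin.castAdd r' i)
        simpa only [Fin.append_left] using this
      · have := h (Fin.natAdd r i)
        simpa only [Fin.append_right] using this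

/-- **Reduction to the algebraic numbers.** Every return set of an endomorphism of degree `d ≥ 2`
of the projective plane over `ℂ` is the intersection of a finite union of progressions and of
finitely many return sets of endomorphisms of degree `d` with algebraic coefficients. -/
theorem redSet_all {d : ℕ} {f : Fin 3 → MvPolynomial (Fin 3) ℂ} (hf : IsEndo (ν := 2) d f)
    {a : Fin 3 → ℂ} (ha : a ≠ 0) {S : Set (MvPolynomial (Fin 3) ℂ)}
    (hS : ∀ g ∈ S, ∃ e, g.IsHomogeneous e) :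
    RedSet d {n | ∀ g ∈ S, eval (iter f a n) g = 0} := by
  refine plane_induct (d := d) (N := 0) (fun _ _ => True) (RedSet d) (redSet_AP d)
    (fun S T => RedSet.inter) ?_ ?_ f Fin.elim0 a hf trivial ha hS
  · intro k _ _ _ K hK F W hF _
    exact ⟨∅, Set.finite_empty, fun _ _ _ _ _ _ => trivial⟩
  · intro f w a g e hfa _ haa hga hf _ ha hg
    obtain ⟨U, hU⟩ := APSet_univ
    refine ⟨U, 1, fun _ => f, fun _ => a, fun _ => g, fun _ => ⟨hf, ha, ⟨e, hg⟩, hfa, haa, hga⟩, ?_⟩
    rw [← hU, Set.univ_inter]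
    ext n
    exact ⟨fun h _ => h, fun h => h 0⟩

end Pool.Agent.Helper30.RED
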