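import Pool.Agent.Helper30.RED.CurveC
import Pool.Agent.Helper38.PC.FF3
import Pool.Agent.Helper33.GC.Sets
import Pool.Agent.Helper72.PN.MainN

/-!
# Post-critically finite endomorphisms of projective space over the complex numbers: curves
-/

set_option autoImplicit false

namespace Pool.Agent.Helper30.RED

open MvPolynomial
open Pool.Agent.Helper16 (Place IsFunctionField)
open Pool.Agent.Helper36 (step iter iter_zero iter_succ iter_succ' iter_add iter_map APSet
  APSet_univ)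
open Pool.Agent.Helper38.TQ
open Pool.Agent.Helper30.TKN
open Pool.Agent.Helper38.PC (Data)

variable {ν : ℕ}

/-- The closed set defined by the forms `w 0, …, w (r - 1)` does not meet `l₀ = l₁ = 0`, the map is
post-critically finite and the orbit is outside the post-critical hypersurface. -/
structure CData (r e E : ℕ) (e' : Fin r → ℕ) (f : Fin (ν + 1) → MvPolynomial (Fin (ν + 1)) ℂ)
    (w : Fin (r + 5) → MvPolynomial (Fin (ν + 1)) ℂ) (a : Fin (ν + 1) → ℂ) : Prop where
  hom : ∀ j, (w (Fin.castAdd 5 j)).IsHomogeneous (e' j)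
  hom0 : (w (Fin.natAdd r 0)).IsHomogeneous 1
  hom1 : (w (Fin.natAdd r 1)).IsHomogeneous 1
  noz : ∀ z : Fin (ν + 1) → ℂ, (∀ j : Fin r, eval z (w (Fin.castAdd 5 j)) = 0) →
    eval z (w (Fin.natAdd r 0)) = 0 → eval z (w (Fin.natAdd r 1)) = 0 → z = 0
  data : Data f e E (w (Fin.natAdd r 2)) (w (Fin.natAdd r 3)) (w (Fin.natAdd r 4))
  out : ∀ n, eval (iter f a n) (w (Fin.natAdd r 2)) ≠ 0

/-- The return set in the form of the induction. -/
theorem ap_of_dml {K : Type} [Field K] [Algebra K ℂ]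
    {F : Fin (ν + 1) → MvPolynomial (Fin (ν + 1)) K} {x : Fin (ν + 1) → K} {r : ℕ}
    {w : Fin r → MvPolynomial (Fin (ν + 1)) K}
    (h : ∃ T : Finset (ℕ × ℕ), {n : ℕ | ∀ g ∈ Set.range fun j => map (algebraMap K ℂ) (w j),
        eval ((fun (x : Fin (ν + 1) → ℂ) (i : Fin (ν + 1)) =>
        eval x (map (algebraMap K ℂ) (F i)))^[n] (fun i => 1 * algebraMap K ℂ (x i))) g = 0} =
      {n : ℕ | ∃ q ∈ T, ∃ m : ℕ, n = q.1 * m + q.2}) :
    ∃ A, {n | ∀ j, eval (iter F x n) (w j) = 0} = APSet A := by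
  obtain ⟨T, hT⟩ := h
  refine ⟨T, ?_⟩
  have h1 : {n : ℕ | ∃ q ∈ T, ∃ k : ℕ, n = q.1 * k + q.2} = APSet T := rfl
  rw [← h1, ← hT]
  ext n
  have h3 : (fun i => (1 : ℂ) * algebraMap K ℂ (x i)) = fun i => algebraMap K ℂ (x i) := by
    funext i
    rw [one_mul]
  simp only [Set.mem_ofPred_eq, Set.forall_mem_range, h3]
  refine forall_congr' fun j => ?_
  rw [← eval_iter_map F x (w j) n]
  exact Iff.rfl

/-- Unbounded heights. -/
theorem cdata_unb {k : Type} [Field k] [IsAlgClosed k] [Algebra k ℂ] (K : IntermediateField k ℂ)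
    (hK : IsFunctionField k K) {d r e E : ℕ} {e' : Fin r → ℕ}
    {F : Fin (ν + 1) → MvPolynomial (Fin (ν + 1)) K}
    {W : Fin (r + 5) → MvPolynomial (Fin (ν + 1)) K} {x : Fin (ν + 1) → K}
    (hF : IsEndo d fun i => map (algebraMap K ℂ) (F i))
    (hC : CData r e E e' (fun i => map (algebraMap K ℂ) (F i))
      (fun j => map (algebraMap K ℂ) (W j)) (fun i => algebraMap K ℂ (x i))) (hx : x ≠ 0)
    (hunb : ∀ B : ℤ, ∃ n, B < ht k (iter F x n)) :
    ∃ A, {n | ∀ j, eval (iter F x n) (W (Fin.castAdd 5 j)) = 0} = APSet A := by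
  refine ap_of_dml ?_
  have hS : ∀ g ∈ Set.range fun j : Fin r => map (algebraMap K ℂ) (W (Fin.castAdd 5 j)),
      ∃ e, g.IsHomogeneous e := by
    rintro g ⟨j, rfl⟩
    exact ⟨_, hC.hom j⟩
  refine Pool.Agent.Helper38.PC.dml_curve_unbounded hK hF (data_of_map (algebraMap K ℂ) hC.data)
    hx hunb ?_ 1 one_ne_zero hS ?_
  · intro n h0
    exact hC.out n ((eval_iter_map F x _ n).2 h0)
  · refine curveSet_of_forms hS hC.hom0 hC.hom1 fun z hz h0 h1 => hC.noz z (fun j => ?_) h0 h1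
    exact hz _ ⟨j, rfl⟩

/-- Specialisation. -/
theorem cdata_spec {k : Type} [Field k] [IsAlgClosed k] [Algebra k ℂ] (K : IntermediateField k ℂ)
    (hK : IsFunctionField k K) {d r e E : ℕ} {e' : Fin r → ℕ}
    {F : Fin (ν + 1) → MvPolynomial (Fin (ν + 1)) K}
    {W : Fin (r + 5) → MvPolynomial (Fin (ν + 1)) K} {x : Fin (ν + 1) → K}
    (hF : IsEndo d fun i => map (algebraMap K ℂ) (F i))
    (hC : CData r e E e' (fun i => map (algebraMap K ℂ) (F i))
      (fun j => map (algebraMap K ℂ) (W j)) (fun i => algebraMap K ℂ (x i))) (hx : x ≠ 0)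
    (B : ℤ) (hB : ∀ n, ht k (iter F x n) ≤ B) :
    ∃ A : Set (Place k K), A.Finite ∧ ∀ b ∉ A,
      ∀ (f : Fin (ν + 1) → MvPolynomial (Fin (ν + 1)) k)
      (w : Fin (r + 5) → MvPolynomial (Fin (ν + 1)) k) (z : Fin (ν + 1) → k), GoodRed d b F f →
        (∀ j, RedP b (W j) (w j)) → Red b x z →
        CData r e E e' (fun i => map (algebraMap k ℂ) (f i)) (fun j => map (algebraMap k ℂ) (w j))
          (fun i => algebraMap k ℂ (z i)) := by
  have hD := data_of_map (algebraMap K ℂ) hC.data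
  obtain ⟨A₁, hA₁, h1⟩ := data_spec hK hD
  obtain ⟨A₂, hA₂, h2⟩ := outside_spec hK hF hx B hB hD
    (fun n h0 => hC.out n ((eval_iter_map F x _ n).2 h0))
  obtain ⟨A₃, hA₃, h3⟩ := noz_spec (k := k) hK (κ := Fin r ⊕ Fin 2)
    (Sum.elim (fun j => W (Fin.castAdd 5 j))
      (fun j => W (Fin.natAdd r (Fin.castLE (by omega) j)))) (by
      intro z hz
      refine hC.noz z (fun j => hz (Sum.inl j)) (hz (Sum.inr 0)) (hz (Sum.inr 1)))
  refine ⟨A₁ ∪ (A₂ ∪ A₃), hA₁.union (hA₂.union hA₃), fun b hb f w z hf hw hz => ?_⟩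
  rw [Set.mem_union, Set.mem_union, not_or, not_or] at hb
  refine ⟨fun j => ?_, ?_, ?_, ?_, ?_, ?_⟩
  · exact (redP_hom (hw _) (hom_of_map (algebraMap K ℂ) (hC.hom j))).map _
  · exact (redP_hom (hw _) (hom_of_map (algebraMap K ℂ) hC.hom0)).map _
  · exact (redP_hom (hw _) (hom_of_map (algebraMap K ℂ) hC.hom1)).map _
  · intro y hy h0 h1
    refine h3 b hb.2.2 (Sum.elim (fun j => w (Fin.castAdd 5 j))
      (fun j => w (Fin.natAdd r (Fin.castLE (by omega) j)))) ?_ y ?_
    · rintro (j | j)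
      · exact hw _
      · exact hw _
    · rintro (j | j)
      · exact hy j
      · fin_cases j
        · exact h0
        · exact h1
  · exact data_map (algebraMap k ℂ) (h1 b hb.1 f _ _ _ hf.red (hw _) (hw _) (hw _))
  · intro n h0
    exact h2 b hb.2.1 f _ z hf (hw _) hz n ((eval_iter_map f z _ n).1 h0)

/-- Algebraic data. -/
theorem cdata_alg {d r e E : ℕ} {e' : Fin r → ℕ}
    {f : Fin (ν + 1) → MvPolynomial (Fin (ν + 1)) ℂ}
    {w : Fin (r + 5) → MvPolynomial (Fin (ν + 1)) ℂ} {a : Fin (ν + 1) → ℂ}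
    (hfa : ∀ i m, IsAlgebraic ℚ ((f i).coeff m)) (hwa : ∀ j m, IsAlgebraic ℚ ((w j).coeff m))
    (haa : ∀ i, IsAlgebraic ℚ (a i)) (hf : IsEndo d f) (hC : CData r e E e' f w a) (ha : a ≠ 0) :
    ∃ A, {n | ∀ j, eval (iter f a n) (w (Fin.castAdd 5 j)) = 0} = APSet A := by
  classical
  set S : Set ℂ := ((⋃ i, ((f i).coeffs : Set ℂ)) ∪ ⋃ j, ((w j).coeffs : Set ℂ)) ∪
    Set.range a with hS
  have hSf : S.Finite := ((Set.finite_iUnion fun i => (f i).coeffs.finite_toSet).union
    (Set.finite_iUnion fun j => (w j).coeffs.finite_toSet)).union (Set.finite_range a)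
  have hSa : ∀ c ∈ S, IsAlgebraic ℚ c := by
    rintro c ((hc | hc) | ⟨i, rfl⟩)
    · obtain ⟨i, hi⟩ := Set.mem_iUnion.1 hc
      obtain ⟨m, hm⟩ := mem_coeffs_iff.1 hi
      rw [hm.2]
      exact hfa i m
    · obtain ⟨i, hi⟩ := Set.mem_iUnion.1 hc
      obtain ⟨m, hm⟩ := mem_coeffs_iff.1 hi
      rw [hm.2]
      exact hwa i m
    · exact haa i
  set K : IntermediateField ℚ ℂ := IntermediateField.adjoin ℚ S with hKdef
  haveI := hSf.to_subtype
  have hfin : FiniteDimensional ℚ K :=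
    IntermediateField.finiteDimensional_adjoin fun x hx => (hSa x hx).isIntegral
  have hnum : NumberField K :=
    { to_charZero := inferInstance
      to_finiteDimensional := by
        have e : (DivisionRing.toRatAlgebra.toModule : Module ℚ K) = K.module' :=
          Subsingleton.elim _ _
        rw [e]
        exact hfin }
  have hmem : ∀ c ∈ S, c ∈ K := fun c hc => IntermediateField.subset_adjoin ℚ _ hc
  choose F hF using fun i => exists_lift K (p := f i) fun c hc =>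
    hmem c (Or.inl (Or.inl (Set.mem_iUnion.2 ⟨i, hc⟩)))
  choose W hW using fun j => exists_lift K (p := w j) fun c hc =>
    hmem c (Or.inl (Or.inr (Set.mem_iUnion.2 ⟨j, hc⟩)))
  let x : Fin (ν + 1) → K := fun i => ⟨a i, hmem _ (Or.inr ⟨i, rfl⟩)⟩
  have hxa : (fun i => algebraMap K ℂ (x i)) = a := rfl
  have hFf : (fun i => map (algebraMap K ℂ) (F i)) = f := funext hF
  have hWw : (fun j => map (algebraMap K ℂ) (W j)) = w := funext hW
  have hx : x ≠ 0 := by
    intro h
    apply ha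
    funext i
    exact congrArg (algebraMap K ℂ) (congrFun h i)
  have hset : {n | ∀ j, eval (iter f a n) (w (Fin.castAdd 5 j)) = 0} =
      {n | ∀ j : Fin r, eval (iter F x n) (W (Fin.castAdd 5 j)) = 0} := by
    ext n
    refine forall_congr' fun j => ?_
    rw [← eval_iter_map F x (W (Fin.castAdd 5 j)) n, hFf, hxa, hW]
  rw [hset]
  have hCK : CData r e E e' (fun i => map (algebraMap K ℂ) (F i))
      (fun j => map (algebraMap K ℂ) (W j)) (fun i => algebraMap K ℂ (x i)) := by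
    rw [hFf, hWw, hxa]
    exact hC
  refine ap_of_dml ?_
  have hS' : ∀ g ∈ Set.range fun j : Fin r => map (algebraMap K ℂ) (W (Fin.castAdd 5 j)),
      ∃ e, g.IsHomogeneous e := by
    rintro g ⟨j, rfl⟩
    exact ⟨_, hCK.hom j⟩
  refine Pool.Agent.Helper72.PN.mainN (by rw [hFf]; exact hf)
    (data_of_map (algebraMap K ℂ) hCK.data) hx ?_ 1 one_ne_zero hS' ?_
  · intro n h0
    exact hCK.out n ((eval_iter_map F x _ n).2 h0)
  · refine curveSet_of_forms hS' hCK.hom0 hCK.hom1 fun z hz h0 h1 => hCK.noz z (fun j => ?_) h0 h1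
    exact hz _ ⟨j, rfl⟩

/-- **Post-critically finite endomorphisms of projective space over the complex numbers**: closed
sets of dimension at most one, orbits outside the post-critical hypersurface. -/
theorem curve_dml {d e E : ℕ} {f : Fin (ν + 1) → MvPolynomial (Fin (ν + 1)) ℂ} (hf : IsEndo d f)
    {g q c : MvPolynomial (Fin (ν + 1)) ℂ} (h : Data f e E g q c) {a : Fin (ν + 1) → ℂ}
    (ha : a ≠ 0) (hg : ∀ n, eval (iter f a n) g ≠ 0)
    {S : Set (MvPolynomial (Fin (ν + 1)) ℂ)} (hS : ∀ g ∈ S, ∃ e, g.IsHomogeneous e)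
    (hdim : ringKrullDim (MvPolynomial (Fin (ν + 1)) ℂ ⧸ Ideal.span S) ≤ 2) :
    ∃ A, {n | ∀ g ∈ S, eval (iter f a n) g = 0} = APSet A := by
  classical
  obtain ⟨S₀, hS₀, hS₀v⟩ := exists_finite_subfamily S
  obtain ⟨l, hl⟩ := exists_two_forms hS hdim
  set r : ℕ := S₀.card with hr
  let p : Fin r → MvPolynomial (Fin (ν + 1)) ℂ := fun j => (S₀.equivFin.symm j : _)
  have hpS : ∀ j, p j ∈ S₀ := fun j => (S₀.equivFin.symm j).2
  have hpsurj : ∀ s ∈ S₀, ∃ j, p j = s := by
    intro s hs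
    refine ⟨S₀.equivFin ⟨s, hs⟩, ?_⟩
    change ((S₀.equivFin.symm (S₀.equivFin ⟨s, hs⟩) : S₀) : MvPolynomial (Fin (ν + 1)) ℂ) = s
    rw [Equiv.symm_apply_apply]
  choose e' he' using fun j => hS (p j) (hS₀ (hpS j))
  let L : ℕ → MvPolynomial (Fin (ν + 1)) ℂ := fun j => ∑ i, C (l j i) * X i
  have hL : ∀ j, (L j).IsHomogeneous 1 := by
    intro j
    refine IsHomogeneous.sum _ _ _ fun i _ => ?_
    have := (isHomogeneous_C (Fin (ν + 1)) (l j i)).mul (isHomogeneous_X ℂ i)
    simpa using this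
  have hLe : ∀ j z, eval z (L j) = ∑ i, l j i * z i := by
    intro j z
    simp [L]
  let w : Fin (r + 5) → MvPolynomial (Fin (ν + 1)) ℂ := Fin.append p ![L 0, L 1, g, q, c]
  have hw1 : ∀ j, w (Fin.castAdd 5 j) = p j := fun j => Fin.append_left _ _ j
  have hw2 : ∀ j, w (Fin.natAdd r j) = ![L 0, L 1, g, q, c] j := fun j => Fin.append_right _ _ j
  have hset : {n | ∀ g ∈ S, eval (iter f a n) g = 0} =
      {n | ∀ j : Fin r, eval (iter f a n) (w (Fin.castAdd 5 j)) = 0} := by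
    ext n
    constructor
    · intro hn j
      rw [hw1]
      exact hn _ (hS₀ (hpS j))
    · intro hn
      refine hS₀v _ fun s hs => ?_
      obtain ⟨j, rfl⟩ := hpsurj s hs
      rw [← hw1]
      exact hn j
  rw [hset]
  refine inductN (d := d) (Fin.castAdd 5) e' (CData r e E e')
    (fun T => ∃ A, T = APSet A) APSet_univ ?_ ?_ ?_ ?_ f w a hf ?_ ha ?_
  · rintro _ _ ⟨A, rfl⟩ ⟨B, rfl⟩
    exact Pool.Agent.Helper33.GC.APSet_inter A B
  · intro k _ _ _ K hK F W x hF hC hx B hB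
    exact cdata_spec K hK hF hC hx B hB
  · intro k _ _ _ K hK F W x hF hC hx hunb _
    exact cdata_unb K hK hF hC hx hunb
  · intro f w a hfa hwa haa hf hC ha _
    exact cdata_alg hfa hwa haa hf hC ha
  · refine ⟨fun j => ?_, ?_, ?_, ?_, ?_, ?_⟩
    · rw [hw1]
      exact he' j
    · rw [hw2]
      exact hL 0
    · rw [hw2]
      exact hL 1
    · intro z hz h0 h1
      refine hl z (hS₀v z fun s hs => ?_) ?_
      · obtain ⟨j, rfl⟩ := hpsurj s hs
        rw [← hw1]
        exact hz j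
      · intro j hj
        have h2 : j = 0 ∨ j = 1 := by omega
        rcases h2 with rfl | rfl
        · rw [← hLe, ← h0, hw2]
          rfl
        · rw [← hLe, ← h1, hw2]
          rfl
    · rw [hw2, hw2, hw2]
      exact h
    · intro n
      rw [hw2]
      exact hg n
  · intro j
    rw [hw1]
    exact he' j

end Pool.Agent.Helper30.RED
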