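import Pool.Agent.Helper30.RED.CurveNI
import Pool.Agent.Helper30.RED.PNC
import Pool.Agent.Helper63.TN.FinalC

/-!
# Curves in projective space: reduction to the algebraic numbers, final form
-/

set_option autoImplicit false

namespace Pool.Agent.Helper30.RED

open MvPolynomial
open Pool.Agent.Helper16 (Place IsFunctionField)
open Pool.Agent.Helper36 (step iter APSet)
open Pool.Agent.Helper38.TQ
open Pool.Agent.Helper30.TKN

variable {ν : ℕ}

theorem unbC (ν d : ℕ) : UnbC ν d := by
  classical
  intro k _ _ _ K hK F x hF hx hunb r W hW hcur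
  obtain ⟨m, a, q, h⟩ := Pool.Agent.Helper63.TN.tn_dml hK hF hx hunb 1 one_ne_zero
    (S₀ := Set.range fun j => map (algebraMap K ℂ) (W j)) (by
      rintro g ⟨j, rfl⟩
      obtain ⟨e, he⟩ := hW j
      exact ⟨e, he.map _⟩) hcur
  refine ap_of_dml ⟨Finset.univ.image fun j => (q j, a j), ?_⟩
  ext n
  rw [Set.mem_ofPred_eq, Set.mem_ofPred_eq, h n]
  constructor
  · rintro ⟨j, t, hn⟩
    exact ⟨(q j, a j), Finset.mem_image_of_mem _ (Finset.mem_univ j), t, by rw [hn, add_comm]⟩
  · rintro ⟨p, hp, t, hn⟩
    obtain ⟨j, -, rfl⟩ := Finset.mem_image.1 hp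
    exact ⟨j, t, by rw [hn, add_comm]⟩

/-- **Reduction to the algebraic numbers.** For every `N`, every return set of an endomorphism of
degree `d ≥ 2` of `P^N` over `ℂ` to a closed set of dimension at most one is the intersection of a
finite union of progressions and of finitely many return sets of endomorphisms of degree `d` to
closed sets of dimension at most one, all with algebraic coefficients. -/
theorem redCurve_all {d : ℕ} {f : Fin (ν + 1) → MvPolynomial (Fin (ν + 1)) ℂ} (hf : IsEndo d f)
    {a : Fin (ν + 1) → ℂ} (ha : a ≠ 0) {S : Set (MvPolynomial (Fin (ν + 1)) ℂ)}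
    (hS : ∀ g ∈ S, ∃ e, g.IsHomogeneous e)
    (hdim : ringKrullDim (MvPolynomial (Fin (ν + 1)) ℂ ⧸ Ideal.span S) ≤ 2) :
    RedCurve ν d {n | ∀ g ∈ S, eval (iter f a n) g = 0} :=
  redCurve_of_unb (unbC ν d) hf ha hS hdim

end Pool.Agent.Helper30.RED
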