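import Pool.Agent.Helper30.RED.InductN
import Pool.Agent.Helper38.TQ.CurveSet

/-!
# Curves in projective space over the complex numbers: specialisation
-/

set_option autoImplicit false

namespace Pool.Agent.Helper30.RED

open MvPolynomial
open Pool.Agent.Helper16 (Place IsFunctionField)
open Pool.Agent.Helper36 (step iter iter_zero iter_succ iter_succ' iter_add iter_map)
open Pool.Agent.Helper38.TQ
open Pool.Agent.Helper30.TKN
open Pool.Agent.Helper38.PC (Data)

variable {ν : ℕ}

/-- A nonzero form in three variables does not vanish at some point `(l, m, 1)`. -/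
theorem exists_affine_point {e : ℕ} {Q : MvPolynomial (Fin 3) ℂ} (hQ : Q.IsHomogeneous e)
    (hQ0 : Q ≠ 0) : ∃ l m : ℂ, eval ![l, m, 1] Q ≠ 0 := by
  have h1 : Q * X 2 ≠ 0 := mul_ne_zero hQ0 (X_ne_zero 2)
  obtain ⟨p, hp⟩ : ∃ p, eval p (Q * X 2) ≠ 0 := by
    by_contra hcon
    push Not at hcon
    exact h1 (MvPolynomial.funext fun p => by rw [hcon p, map_zero])
  rw [map_mul, eval_X] at hp
  have h2 : eval p Q ≠ 0 := left_ne_zero_of_mul hp
  have h3 : p 2 ≠ 0 := right_ne_zero_of_mul hp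
  refine ⟨p 0 / p 2, p 1 / p 2, ?_⟩
  intro h4
  apply h2
  have h5 : p = fun i => p 2 * (![p 0 / p 2, p 1 / p 2, 1] : Fin 3 → ℂ) i := by
    funext i
    fin_cases i
    · change p 0 = p 2 * (p 0 / p 2)
      rw [mul_div_cancel₀ _ h3]
    · change p 1 = p 2 * (p 1 / p 2)
      rw [mul_div_cancel₀ _ h3]
    · change p 2 = p 2 * 1
      rw [mul_one]
  rw [h5]
  have h6 := eval_smul_hom (ν := 2) hQ (p 2) (![p 0 / p 2, p 1 / p 2, 1] : Fin 3 → ℂ)
  rw [h4, mul_zero] at h6
  exact h6

/-- A closed set of dimension at most one does not meet a suitable linear subspace of codimension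
two. -/
theorem exists_two_forms {S : Set (MvPolynomial (Fin (ν + 1)) ℂ)}
    (hS : ∀ g ∈ S, ∃ e, g.IsHomogeneous e)
    (hdim : ringKrullDim (MvPolynomial (Fin (ν + 1)) ℂ ⧸ Ideal.span S) ≤ 2) :
    ∃ c : ℕ → Fin (ν + 1) → ℂ, ∀ x : Fin (ν + 1) → ℂ, (∀ g ∈ S, eval x g = 0) →
      (∀ j < 2, ∑ i, c j i * x i = 0) → x = 0 := by
  classical
  have hstart : ∃ c : ℕ → Fin (ν + 1) → ℂ, ∀ x : Fin (ν + 1) → ℂ, (∀ g ∈ S, eval x g = 0) →
      (∀ j < ν + 1 + 2, ∑ i, c j i * x i = 0) → x = 0 := by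
    refine ⟨fun j i => if j = i.val then 1 else 0, fun x _ hx => ?_⟩
    funext i
    have h1 := hx i.val (by omega)
    rw [Finset.sum_eq_single i] at h1
    · simpa using h1
    · intro j _ hj
      have h2 : ¬ i.val = j.val := fun h => hj (Fin.ext h.symm)
      simp only [h2, if_false, zero_mul]
    · intro h
      exact absurd (Finset.mem_univ i) h
  have hdesc : ∀ m : ℕ, (∃ c : ℕ → Fin (ν + 1) → ℂ, ∀ x : Fin (ν + 1) → ℂ,
      (∀ g ∈ S, eval x g = 0) → (∀ j < m + 3, ∑ i, c j i * x i = 0) → x = 0) →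
      ∃ c : ℕ → Fin (ν + 1) → ℂ, ∀ x : Fin (ν + 1) → ℂ,
        (∀ g ∈ S, eval x g = 0) → (∀ j < m + 2, ∑ i, c j i * x i = 0) → x = 0 := by
    rintro m ⟨c, hc⟩
    obtain ⟨e, Q, hQ, hQ0, hQv⟩ := exists_relation_linear hS hdim ![c m, c (m + 1), c (m + 2)]
    obtain ⟨l, l', hl⟩ := exists_affine_point hQ hQ0
    refine ⟨fun j i => if j < m then c j i else if j = m then c m i - l * c (m + 2) i
      else c (m + 1) i - l' * c (m + 2) i, fun x hx hj => hc x hx ?_⟩
    set t : ℂ := ∑ i, c (m + 2) i * x i with ht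
    have h0 : ∑ i, c m i * x i = l * t := by
      have h1 := hj m (by omega)
      simp only [lt_irrefl, if_false, if_true, sub_mul, Finset.sum_sub_distrib] at h1
      rw [sub_eq_zero] at h1
      rw [h1, ht, Finset.mul_sum]
      exact Finset.sum_congr rfl fun i _ => by ring
    have h1 : ∑ i, c (m + 1) i * x i = l' * t := by
      have h1 := hj (m + 1) (by omega)
      have h2 : ¬ m + 1 < m := by omega
      have h3 : ¬ m + 1 = m := by omega
      simp only [h2, h3, if_false, sub_mul, Finset.sum_sub_distrib] at h1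
      rw [sub_eq_zero] at h1
      rw [h1, ht, Finset.mul_sum]
      exact Finset.sum_congr rfl fun i _ => by ring
    have ht0 : t = 0 := by
      have h2 := hQv x hx
      have h3 : (fun j => ∑ i, (![c m, c (m + 1), c (m + 2)] : Fin 3 → Fin (ν + 1) → ℂ) j i * x i)
          = fun j => t * (![l, l', 1] : Fin 3 → ℂ) j := by
        funext j
        fin_cases j
        · change ∑ i, c m i * x i = t * l
          rw [h0, mul_comm]
        · change ∑ i, c (m + 1) i * x i = t * l'
          rw [h1, mul_comm]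
        · change ∑ i, c (m + 2) i * x i = t * 1
          rw [mul_one]
      rw [h3] at h2
      have h4 := eval_smul_hom (ν := 2) hQ t (![l, l', 1] : Fin 3 → ℂ)
      have h6 : eval (t • (![l, l', 1] : Fin 3 → ℂ)) Q = 0 := h2
      rw [h6] at h4
      have h5 := (mul_eq_zero.1 h4.symm).resolve_right hl
      exact eq_zero_of_pow_eq_zero h5
    intro j hjm
    rcases lt_or_ge j m with h | h
    · have h2 := hj j (by omega)
      simp only [h, if_true] at h2
      exact h2
    · have h2 : j = m ∨ j = m + 1 ∨ j = m + 2 := by omega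
      rcases h2 with rfl | rfl | rfl
      · rw [h0, ht0, mul_zero]
      · rw [h1, ht0, mul_zero]
      · exact ht0
  have hall : ∀ m : ℕ, (∃ c : ℕ → Fin (ν + 1) → ℂ, ∀ x : Fin (ν + 1) → ℂ,
      (∀ g ∈ S, eval x g = 0) → (∀ j < m + 2, ∑ i, c j i * x i = 0) → x = 0) →
      ∃ c : ℕ → Fin (ν + 1) → ℂ, ∀ x : Fin (ν + 1) → ℂ,
        (∀ g ∈ S, eval x g = 0) → (∀ j < 2, ∑ i, c j i * x i = 0) → x = 0 := by
    intro m
    induction m with
    | zero =>
      intro h
      rwa [zero_add] at h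
    | succ m ih =>
      intro h
      exact ih (hdesc m h)
  exact hall (ν + 1) hstart

/-- Forms without common zero specialise to forms without common zero, outside a finite set of
places. -/
theorem noz_spec {k K : Type} [Field k] [IsAlgClosed k] [Algebra k ℂ] [Field K] [Algebra k K]
    [Algebra K ℂ] (hK : IsFunctionField k K) {κ : Type} [Finite κ]
    (H : κ → MvPolynomial (Fin (ν + 1)) K)
    (hH : ∀ z : Fin (ν + 1) → ℂ, (∀ j, eval z (map (algebraMap K ℂ) (H j)) = 0) → z = 0) :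
    ∃ A : Set (Place k K), A.Finite ∧ ∀ b ∉ A, ∀ h : κ → MvPolynomial (Fin (ν + 1)) k,
      (∀ j, RedP b (H j) (h j)) →
      ∀ z : Fin (ν + 1) → ℂ, (∀ j, eval z (map (algebraMap k ℂ) (h j)) = 0) → z = 0 := by
  classical
  haveI := Fintype.ofFinite κ
  have h1 : ∀ i : Fin (ν + 1), ∃ (r : ℕ) (q : κ → MvPolynomial (Fin (ν + 1)) K),
      ∑ j, q j * H j = X i ^ r := by
    intro i
    have h2 : (X i : MvPolynomial (Fin (ν + 1)) K) ∈ (Ideal.span (Set.range H)).radical := by
      rw [← MvPolynomial.vanishingIdeal_zeroLocus_eq_radical (K := ℂ),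
        MvPolynomial.mem_vanishingIdeal_iff]
      intro x hx
      rw [MvPolynomial.mem_zeroLocus_iff] at hx
      have : x = 0 := hH x fun j => by
        have h3 := hx _ (Ideal.subset_span ⟨j, rfl⟩)
        rw [eval_map]
        exact h3
      rw [this]
      simp
    obtain ⟨r, hr⟩ := h2
    obtain ⟨q, hq⟩ := (Submodule.mem_span_range_iff_exists_fun _).1 hr
    exact ⟨r, q, by simpa only [smul_eq_mul] using hq⟩
  choose r q hq using h1
  refine ⟨⋃ p : Fin (ν + 1) × κ, {b : Place k K | ¬ ∀ m, b.val ((q p.1 p.2).coeff m) ≤ 1},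
    Set.finite_iUnion fun p => Good2_fin hK (q p.1 p.2), fun b hb h hh z hz => ?_⟩
  rw [Set.mem_iUnion, not_exists] at hb
  have hint : ∀ i j m, b.val ((q i j).coeff m) ≤ 1 := fun i j => not_not.1 (hb (i, j))
  choose q' hq' using fun i j => redP_exists' hK b (hint i j)
  funext i
  have h3 : ∑ j, q' i j * h j = X i ^ r i := by
    refine RedP.unique (P := X i ^ r i) ?_ ((redP_C_X b i).pow _)
    rw [← hq i]
    exact RedP.sum _ fun j _ => (hq' i j).mul (hh j)
  have h4 := congrArg (fun p => eval z (map (algebraMap k ℂ) p)) h3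
  simp only [map_sum, map_mul, map_pow, map_X, eval_X, hz, mul_zero,
    Finset.sum_const_zero] at h4
  exact eq_zero_of_pow_eq_zero h4.symm

/-- If the heights of the points `x n` are bounded and if they are not on the post-critical
hypersurface `g = 0`, then the same holds for the specialisations outside a finite set of
places. -/
theorem outside_spec {k K : Type} [Field k] [IsAlgClosed k] [Field K] [Algebra k K]
    [Algebra K ℂ] (hK : IsFunctionField k K) {d : ℕ}
    {F : Fin (ν + 1) → MvPolynomial (Fin (ν + 1)) K}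
    (hF : IsEndo d fun i => map (algebraMap K ℂ) (F i)) {x : Fin (ν + 1) → K} (hx : x ≠ 0)
    (B : ℤ) (hB : ∀ n, ht k (iter F x n) ≤ B) {e E : ℕ}
    {g q c : MvPolynomial (Fin (ν + 1)) K} (hD : Data F e E g q c)
    (hg : ∀ n, eval (iter F x n) g ≠ 0) :
    ∃ A : Set (Place k K), A.Finite ∧ ∀ b ∉ A,
      ∀ (f : Fin (ν + 1) → MvPolynomial (Fin (ν + 1)) k)
        (γ : MvPolynomial (Fin (ν + 1)) k) (z : Fin (ν + 1) → k), GoodRed d b F f →
        RedP b g γ → Red b x z → ∀ n, eval (iter f z n) γ ≠ 0 := by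
  classical
  have hhom : ∀ i, (F i).IsHomogeneous d := by
    intro i m hm
    refine hF.hom i ?_
    rw [coeff_map]
    simpa using hm
  have hne : ∀ n, iter F x n ≠ 0 := fun n => iter_ne_zeroK hF hx n
  obtain ⟨A₁, hA₁, hA₁d⟩ := data_spec hK hD
  set A₀ : Set (Place k K) := ((A₁ ∪ {b | ¬ Good d b F}) ∪ {b | WithZero.log (gs b g) ≠ 0}) ∪
    ({b | ¬ ∀ m, b.val (g.coeff m) ≤ 1} ∪ ({b | ¬ ∀ m, b.val (q.coeff m) ≤ 1} ∪
      {b | ¬ ∀ m, b.val (c.coeff m) ≤ 1})) with hA₀
  have hA₀f : A₀.Finite := ((hA₁.union (good_finite hK hF)).union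
    (formHeight_support hK hD.ne)).union ((Good2_fin hK g).union ((Good2_fin hK q).union
      (Good2_fin hK c)))
  set Z : ℕ → Set (Place k K) := fun n =>
    {b | b ∉ A₀ ∧ b.val (eval (iter F x n) g) < nrm b (iter F x n) ^ e} with hZ
  set H : ℤ := ∑ᶠ b : Place k K, WithZero.log (gs b g) with hH
  have hlog : ∀ b ∉ A₀, WithZero.log (gs b g) = 0 := by
    intro b hb
    by_contra h
    exact hb (Or.inl (Or.inr h))
  have hcard : ∀ (n : ℕ) (T : Finset (Place k K)), (∀ b ∈ T, b ∈ Z n) →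
      (T.card : ℤ) ≤ e * B + H := by
    intro n T hT
    have h1 := card_zeros_le hK hD.hom hD.ne (hne n) (hg n) T fun b hb =>
      ⟨(hT b hb).2, hlog b (hT b hb).1⟩
    have h2 : (e : ℤ) * ht k (iter F x n) ≤ e * B :=
      mul_le_mul_of_nonneg_left (hB n) (Int.natCast_nonneg e)
    linarith
  have hchar : ∀ b ∉ A₀, ∀ (f : Fin (ν + 1) → MvPolynomial (Fin (ν + 1)) k)
      (γ : MvPolynomial (Fin (ν + 1)) k) (z : Fin (ν + 1) → k), GoodRed d b F f →
      RedP b g γ → Red b x z → ∀ n, (eval (iter f z n) γ = 0 ↔ b ∈ Z n) := by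
    intro b hb f γ z hf hγ hz n
    rw [red_eval_iff hD.hom hγ (hf.iter hhom hz n)]
    exact ⟨fun h => ⟨hb, h⟩, fun h => h.2⟩
  have hmono : ∀ n, Z n ⊆ Z (n + 1) := by
    intro n b hbn
    obtain ⟨hb, -⟩ := id hbn
    have hgood : Good d b F := by
      by_contra h
      exact hb (Or.inl (Or.inl (Or.inr h)))
    have hgi : ∀ m, b.val (g.coeff m) ≤ 1 := by
      by_contra h
      exact hb (Or.inr (Or.inl h))
    have hqi : ∀ m, b.val (q.coeff m) ≤ 1 := by
      by_contra h
      exact hb (Or.inr (Or.inr (Or.inl h)))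
    have hci : ∀ m, b.val (c.coeff m) ≤ 1 := by
      by_contra h
      exact hb (Or.inr (Or.inr (Or.inr h)))
    obtain ⟨f, hf⟩ := hgood
    obtain ⟨z, hz⟩ := exists_red hK b x hx
    obtain ⟨γ, hγ⟩ := redP_exists' hK b hgi
    obtain ⟨q', hq'⟩ := redP_exists' hK b hqi
    obtain ⟨c', hc'⟩ := redP_exists' hK b hci
    have hD' := hA₁d b (fun h => hb (Or.inl (Or.inl (Or.inl h)))) f γ q' c' hf.red hγ hq' hc'
    have h1 := (hchar b hb f γ z hf hγ hz n).2 hbn
    exact (hchar b hb f γ z hf hγ hz (n + 1)).1 (hD'.eval_zero z n h1 1)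
  have hmono' : ∀ n m, n ≤ m → Z n ⊆ Z m := by
    intro n m hnm
    induction m, hnm using Nat.le_induction with
    | base => exact subset_rfl
    | succ m _ ih => exact ih.trans (hmono m)
  have hfin : (⋃ n, Z n).Finite := by
    by_contra hinf
    obtain ⟨T, hT, hTc⟩ := Set.Infinite.exists_subset_card_eq hinf ((e * B + H).toNat + 1)
    have h1 : ∀ b ∈ T, ∃ n, b ∈ Z n := fun b hb => Set.mem_iUnion.1 (hT hb)
    choose! m hm using h1
    have h2 := hcard (T.sup m) T fun b hb => hmono' _ _ (Finset.le_sup hb) (hm b hb)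
    rw [hTc] at h2
    have h3 := Int.self_le_toNat (e * B + H)
    push_cast at h2
    omega
  refine ⟨A₀ ∪ ⋃ n, Z n, hA₀f.union hfin, fun b hb f γ z hf hγ hz n h0 => ?_⟩
  rw [Set.mem_union, not_or] at hb
  exact hb.2 (Set.mem_iUnion.2 ⟨n, (hchar b hb.1 f γ z hf hγ hz n).1 h0⟩)

end Pool.Agent.Helper30.RED
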