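import Pool.Agent.Helper57.RP.KrullLe

/-!
# Closed sets which do not meet a linear subspace of codimension two have dimension at most one
-/

set_option autoImplicit false

namespace Pool.Agent.Helper30.RED

open MvPolynomial
open Pool.Agent.Helper36 (homogeneousComponent_mul_of_homogeneous)
open Pool.Agent.Helper57.RP (ringKrullDim_le_of_isIntegral exists_pow_mem)

variable {K : Type} [Field K]

/-- The module generated by the small monomials. -/
theorem krull_le_of_rel2 {N : ℕ} (J : Ideal (MvPolynomial (Fin N) K))
    (l l' : MvPolynomial (Fin N) K) (r : ℕ) (hr : 0 < r)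
    (h : ∀ i : Fin N, ∃ v w : MvPolynomial (Fin N) K, v.totalDegree < r ∧ w.totalDegree < r ∧
      X i ^ r - (v * l + w * l') ∈ J) :
    ringKrullDim (MvPolynomial (Fin N) K ⧸ J) ≤ 2 := by
  classical
  let φ : MvPolynomial (Fin 2) K →ₐ[K] (MvPolynomial (Fin N) K ⧸ J) :=
    aeval ![Ideal.Quotient.mk J l, Ideal.Quotient.mk J l']
  let _ : Algebra (MvPolynomial (Fin 2) K) (MvPolynomial (Fin N) K ⧸ J) := φ.toRingHom.toAlgebra
  have hmap : ∀ q : MvPolynomial (Fin 2) K,
      algebraMap (MvPolynomial (Fin 2) K) (MvPolynomial (Fin N) K ⧸ J) q = φ q :=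
    fun _ => rfl
  let T : Set (Fin N →₀ ℕ) := Set.Iic (Finsupp.equivFunOnFinite.symm fun _ => r)
  have hT : T.Finite := Set.finite_Iic _
  let W : Submodule (MvPolynomial (Fin 2) K) (MvPolynomial (Fin N) K ⧸ J) :=
    Submodule.span (MvPolynomial (Fin 2) K) ((fun s => Ideal.Quotient.mk J (monomial s 1)) '' T)
  have hsmul : ∀ (a : K) (w : MvPolynomial (Fin N) K), Ideal.Quotient.mk J w ∈ W →
      Ideal.Quotient.mk J (C a * w) ∈ W := by
    intro a w hw
    have h1 : Ideal.Quotient.mk J (C a * w) = (C a : MvPolynomial (Fin 2) K) •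
        Ideal.Quotient.mk J w := by
      rw [Algebra.smul_def, hmap, map_mul]
      congr 1
      simp only [φ, aeval_C]
      rfl
    rw [h1]
    exact W.smul_mem _ hw
  have hlmul : ∀ w : MvPolynomial (Fin N) K, Ideal.Quotient.mk J w ∈ W →
      Ideal.Quotient.mk J (w * l) ∈ W := by
    intro w hw
    have h1 : Ideal.Quotient.mk J (w * l) = (X 0 : MvPolynomial (Fin 2) K) •
        Ideal.Quotient.mk J w := by
      rw [Algebra.smul_def, hmap, map_mul, mul_comm]
      congr 1
      simp [φ, aeval_X]
    rw [h1]
    exact W.smul_mem _ hw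
  have hlmul' : ∀ w : MvPolynomial (Fin N) K, Ideal.Quotient.mk J w ∈ W →
      Ideal.Quotient.mk J (w * l') ∈ W := by
    intro w hw
    have h1 : Ideal.Quotient.mk J (w * l') = (X 1 : MvPolynomial (Fin 2) K) •
        Ideal.Quotient.mk J w := by
      rw [Algebra.smul_def, hmap, map_mul, mul_comm]
      congr 1
      simp [φ, aeval_X]
    rw [h1]
    exact W.smul_mem _ hw
  have hmain : ∀ n : ℕ, ∀ p : MvPolynomial (Fin N) K, p.totalDegree ≤ n →
      Ideal.Quotient.mk J p ∈ W := by
    intro n
    induction n using Nat.strong_induction_on with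
    | _ n ih =>
      intro p hp
      have h1 : p = ∑ s ∈ p.support, C (p.coeff s) * monomial s 1 := by
        conv_lhs => rw [p.as_sum]
        apply Finset.sum_congr rfl
        intro s _
        rw [C_mul_monomial, mul_one]
      rw [h1, map_sum]
      apply W.sum_mem
      intro s hs
      apply hsmul
      have hsd : (s.sum fun _ e => e) ≤ n := le_trans (le_totalDegree hs) hp
      by_cases hsT : s ∈ T
      · exact Submodule.subset_span ⟨s, hsT, rfl⟩
      · have h2 : ∃ i, r < s i := by
          by_contra hcon
          push Not at hcon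
          exact hsT (fun i => hcon i)
        obtain ⟨i, hi⟩ := h2
        obtain ⟨v, w, hv, hw, huv⟩ := h i
        let s' : Fin N →₀ ℕ := s - Finsupp.single i r
        have hs' : s = s' + Finsupp.single i r := by
          refine (tsub_add_cancel_of_le ?_).symm
          rw [Finsupp.single_le_iff]
          exact hi.le
        have hdeg : (s.sum fun _ e => e) = (s'.sum fun _ e => e) + r := by
          conv_lhs => rw [hs']
          rw [Finsupp.sum_add_index' (fun _ => rfl) (fun _ _ _ => rfl),
            Finsupp.sum_single_index rfl]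
        have hm : (monomial s (1 : K)) = monomial s' 1 * X i ^ r := by
          conv_lhs => rw [hs']
          rw [X_pow_eq_monomial, monomial_mul, one_mul]
        have hm2 : Ideal.Quotient.mk J (monomial s (1 : K)) =
            Ideal.Quotient.mk J (monomial s' 1 * v * l) +
              Ideal.Quotient.mk J (monomial s' 1 * w * l') := by
          rw [← map_add, hm, Ideal.Quotient.eq]
          have : monomial s' 1 * X i ^ r - (monomial s' 1 * v * l + monomial s' 1 * w * l') =
              monomial s' 1 * (X i ^ r - (v * l + w * l')) := by ring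
          rw [this]
          exact J.mul_mem_left _ huv
        rw [hm2]
        have hs'd : (monomial s' (1 : K)).totalDegree ≤ (s'.sum fun _ e => e) := by
          exact totalDegree_monomial_le _ _
        apply W.add_mem
        · apply hlmul
          apply ih (n - 1) (by omega)
          refine le_trans (totalDegree_mul _ _) ?_
          omega
        · apply hlmul'
          apply ih (n - 1) (by omega)
          refine le_trans (totalDegree_mul _ _) ?_
          omega
  have htop : W = ⊤ := by
    rw [eq_top_iff]
    intro x _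
    obtain ⟨p, rfl⟩ := Ideal.Quotient.mk_surjective x
    exact hmain _ p le_rfl
  have hfin : Module.Finite (MvPolynomial (Fin 2) K) (MvPolynomial (Fin N) K ⧸ J) := by
    refine ⟨?_⟩
    rw [← htop]
    exact Submodule.fg_span (hT.image _)
  have hint : Algebra.IsIntegral (MvPolynomial (Fin 2) K) (MvPolynomial (Fin N) K ⧸ J) :=
    Algebra.IsIntegral.of_finite _ _
  refine le_trans (ringKrullDim_le_of_isIntegral (A := MvPolynomial (Fin 2) K)) ?_
  rw [MvPolynomial.ringKrullDim_of_isNoetherianRing, ringKrullDim_eq_zero_of_field, zero_add,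
    Nat.card_fin]
  exact le_rfl

attribute [local instance] MvPolynomial.gradedAlgebra

/-- If a closed set does not meet `l₀ = l₁ = 0`, then its dimension is at most one. -/
theorem krull_le_two [Algebra K ℂ] {N : ℕ} {S : Set (MvPolynomial (Fin (N + 1)) K)}
    (hS : ∀ g ∈ S, ∃ e : ℕ, g.IsHomogeneous e) {l₀ l₁ : MvPolynomial (Fin (N + 1)) K}
    (h0 : l₀.IsHomogeneous 1) (h1 : l₁.IsHomogeneous 1)
    (hno : ∀ z : Fin (N + 1) → ℂ, (∀ g ∈ S, aeval z g = 0) → aeval z l₀ = 0 → aeval z l₁ = 0 →
      z = 0) : ringKrullDim (MvPolynomial (Fin (N + 1)) K ⧸ Ideal.span S) ≤ 2 := by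
  classical
  obtain ⟨r, hr, hX⟩ := exists_pow_mem (K := K) (Ideal.span (insert l₀ (insert l₁ S))) (by
    intro x hx
    exact hno x (fun g hg => hx g (Ideal.subset_span (Set.mem_insert_of_mem _
      (Set.mem_insert_of_mem _ hg)))) (hx _ (Ideal.subset_span (Set.mem_insert _ _)))
      (hx _ (Ideal.subset_span (Set.mem_insert_of_mem _ (Set.mem_insert _ _)))))
  have hhom : ∀ g ∈ Ideal.span S, ∀ n, homogeneousComponent n g ∈ Ideal.span S := by
    intro g hg n
    have h2 : (Ideal.span S).IsHomogeneous (homogeneousSubmodule (Fin (N + 1)) K) := by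
      refine Ideal.homogeneous_span _ _ fun x hx => ?_
      obtain ⟨e, he⟩ := hS x hx
      exact ⟨e, he⟩
    exact homogeneousComponent_mem_of_mem h2 hg n
  refine krull_le_of_rel2 _ l₀ l₁ r hr fun i => ?_
  have h2 := hX i
  rw [Ideal.mem_span_insert] at h2
  obtain ⟨a, z, hz, hza⟩ := h2
  rw [Ideal.mem_span_insert] at hz
  obtain ⟨b, g, hg, rfl⟩ := hz
  refine ⟨homogeneousComponent (r - 1) a, homogeneousComponent (r - 1) b, ?_, ?_, ?_⟩
  · refine lt_of_le_of_lt (homogeneousComponent_isHomogeneous _ _).totalDegree_le ?_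
    omega
  · refine lt_of_le_of_lt (homogeneousComponent_isHomogeneous _ _).totalDegree_le ?_
    omega
  · have h3 := congrArg (homogeneousComponent r) hza
    have h4 : homogeneousComponent r (X i ^ r : MvPolynomial (Fin (N + 1)) K) = X i ^ r := by
      rw [homogeneousComponent_of_mem ((mem_homogeneousSubmodule _ _).2 (isHomogeneous_X_pow i r)),
        if_pos rfl]
    have h5 : ∀ p l : MvPolynomial (Fin (N + 1)) K, l.IsHomogeneous 1 →
        homogeneousComponent r (p * l) = homogeneousComponent (r - 1) p * l := by
      intro p l hl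
      obtain ⟨r', rfl⟩ : ∃ r', r = r' + 1 := ⟨r - 1, by omega⟩
      rw [Nat.add_sub_cancel]
      exact homogeneousComponent_mul_of_homogeneous hl p r'
    rw [h4, map_add, map_add, h5 _ _ h0, h5 _ _ h1] at h3
    rw [h3]
    have h6 : homogeneousComponent (r - 1) a * l₀ +
        (homogeneousComponent (r - 1) b * l₁ + homogeneousComponent r g) -
        (homogeneousComponent (r - 1) a * l₀ + homogeneousComponent (r - 1) b * l₁) =
        homogeneousComponent r g := by ring
    rw [h6]
    exact hhom g hg r

end Pool.Agent.Helper30.RED
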