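import Pool.Agent.Helper30.RED.CurveC
import Pool.Agent.Helper30.RED.DimN
import Pool.Agent.Helper33.GC.Sets

/-!
# Curves in projective space: reduction to the algebraic numbers
-/

set_option autoImplicit false

namespace Pool.Agent.Helper30.RED

open MvPolynomial
open Pool.Agent.Helper16 (Place IsFunctionField)
open Pool.Agent.Helper36 (step iter iter_zero iter_succ iter_succ' iter_add iter_map APSet
  APSet_univ)
open Pool.Agent.Helper38.TQ
open Pool.Agent.Helper30.TKN
open Pool.Agent.Helper33.GC (APSet_inter)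

variable {ν : ℕ}

/-- The closed set defined by the forms `w 0, …, w (r - 1)` does not meet `l₀ = l₁ = 0`, where
`l₀ = w r` and `l₁ = w (r + 1)` are linear forms. -/
structure LData (r : ℕ) (e' : Fin r → ℕ) (w : Fin (r + 2) → MvPolynomial (Fin (ν + 1)) ℂ) :
    Prop where
  hom : ∀ j, (w (Fin.castAdd 2 j)).IsHomogeneous (e' j)
  hom0 : (w (Fin.natAdd r 0)).IsHomogeneous 1
  hom1 : (w (Fin.natAdd r 1)).IsHomogeneous 1
  noz : ∀ z : Fin (ν + 1) → ℂ, (∀ j : Fin r, eval z (w (Fin.castAdd 2 j)) = 0) →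
    eval z (w (Fin.natAdd r 0)) = 0 → eval z (w (Fin.natAdd r 1)) = 0 → z = 0

/-- Specialisation. -/
theorem ldata_spec {k : Type} [Field k] [IsAlgClosed k] [Algebra k ℂ] (K : IntermediateField k ℂ)
    (hK : IsFunctionField k K) {r : ℕ} {e' : Fin r → ℕ}
    {W : Fin (r + 2) → MvPolynomial (Fin (ν + 1)) K}
    (hC : LData r e' (fun j => map (algebraMap K ℂ) (W j))) :
    ∃ A : Set (Place k K), A.Finite ∧ ∀ b ∉ A,
      ∀ (w : Fin (r + 2) → MvPolynomial (Fin (ν + 1)) k),
        (∀ j, RedP b (W j) (w j)) → LData r e' (fun j => map (algebraMap k ℂ) (w j)) := by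
  obtain ⟨A₃, hA₃, h3⟩ := noz_spec (k := k) hK (κ := Fin r ⊕ Fin 2)
    (Sum.elim (fun j => W (Fin.castAdd 2 j)) (fun j => W (Fin.natAdd r j))) (by
      intro z hz
      refine hC.noz z (fun j => hz (Sum.inl j)) (hz (Sum.inr 0)) (hz (Sum.inr 1)))
  refine ⟨A₃, hA₃, fun b hb w hw => ⟨fun j => ?_, ?_, ?_, ?_⟩⟩
  · exact (redP_hom (hw _) (hom_of_map (algebraMap K ℂ) (hC.hom j))).map _
  · exact (redP_hom (hw _) (hom_of_map (algebraMap K ℂ) hC.hom0)).map _
  · exact (redP_hom (hw _) (hom_of_map (algebraMap K ℂ) hC.hom1)).map _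
  · intro y hy h0 h1
    refine h3 b hb (Sum.elim (fun j => w (Fin.castAdd 2 j)) (fun j => w (Fin.natAdd r j))) ?_ y ?_
    · rintro (j | j)
      · exact hw _
      · exact hw _
    · rintro (j | j)
      · exact hy j
      · fin_cases j
        · exact h0
        · exact h1

/-- The data of a return set for a closed set of dimension at most one, over the algebraic
numbers. -/
structure AlgCurve (d : ℕ) (φ : Fin (ν + 1) → MvPolynomial (Fin (ν + 1)) ℂ) (z : Fin (ν + 1) → ℂ)
    (S : Finset (MvPolynomial (Fin (ν + 1)) ℂ)) : Prop where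
  endo : IsEndo d φ
  ne : z ≠ 0
  algf : ∀ i m, IsAlgebraic ℚ ((φ i).coeff m)
  algz : ∀ i, IsAlgebraic ℚ (z i)
  hom : ∀ g ∈ S, ∃ e, g.IsHomogeneous e
  algg : ∀ g ∈ S, ∀ m, IsAlgebraic ℚ (g.coeff m)
  dim : ringKrullDim (MvPolynomial (Fin (ν + 1)) ℂ ⧸
    Ideal.span (S : Set (MvPolynomial (Fin (ν + 1)) ℂ))) ≤ 2

/-- The statement for function fields and unbounded heights. -/
def UnbC (ν d : ℕ) : Prop :=
  ∀ (k : Type) [Field k] [IsAlgClosed k] [Algebra k ℂ] (K : IntermediateField k ℂ),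
    IsFunctionField k K → ∀ (F : Fin (ν + 1) → MvPolynomial (Fin (ν + 1)) K)
    (x : Fin (ν + 1) → K), (IsEndo d fun i => map (algebraMap K ℂ) (F i)) → x ≠ 0 →
    (∀ B : ℤ, ∃ n, B < ht k (iter F x n)) → ∀ (r : ℕ) (W : Fin r → MvPolynomial (Fin (ν + 1)) K),
    (∀ j, ∃ e, (W j).IsHomogeneous e) →
    CurveSet (Set.range fun j => map (algebraMap K ℂ) (W j)) →
    ∃ A, {n | ∀ j, eval (iter F x n) (W j) = 0} = APSet A

/-- **Induction for curves.** A property of sets which holds for finite unions of progressions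
and for the return sets of closed sets of dimension at most one over the algebraic numbers, and
which is closed under intersections, holds for the return sets of all closed sets of dimension at
most one over `ℂ`. -/
theorem curveN_induct {d : ℕ} (R : Set ℕ → Prop) (hRa : ∀ A, R (APSet A))
    (hRi : ∀ S T, R S → R T → R (S ∩ T)) (hunb : UnbC ν d)
    (halg : ∀ (f : Fin (ν + 1) → MvPolynomial (Fin (ν + 1)) ℂ) (a : Fin (ν + 1) → ℂ)
      (S : Finset (MvPolynomial (Fin (ν + 1)) ℂ)), AlgCurve d f a S →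
      R {n | ∀ g ∈ S, eval (iter f a n) g = 0})
    {f : Fin (ν + 1) → MvPolynomial (Fin (ν + 1)) ℂ} (hf : IsEndo d f) {a : Fin (ν + 1) → ℂ}
    (ha : a ≠ 0) {S : Set (MvPolynomial (Fin (ν + 1)) ℂ)} (hS : ∀ g ∈ S, ∃ e, g.IsHomogeneous e)
    (hdim : ringKrullDim (MvPolynomial (Fin (ν + 1)) ℂ ⧸ Ideal.span S) ≤ 2) :
    R {n | ∀ g ∈ S, eval (iter f a n) g = 0} := by
  classical
  obtain ⟨S₀, hS₀, hS₀v⟩ := exists_finite_subfamily S
  obtain ⟨l, hl⟩ := exists_two_forms hS hdim
  set r : ℕ := S₀.card with hr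
  let p : Fin r → MvPolynomial (Fin (ν + 1)) ℂ := fun j => (S₀.equivFin.symm j : _)
  have hpS : ∀ j, p j ∈ S₀ := fun j => (S₀.equivFin.symm j).2
  have hpsurj : ∀ s ∈ S₀, ∃ j, p j = s := by
    intro s hs
    refine ⟨S₀.equivFin ⟨s, hs⟩, ?_⟩
    change ((S₀.equivFin.symm (S₀.equivFin ⟨s, hs⟩) : S₀) : MvPolynomial (Fin (ν + 1)) ℂ) = s
    rw [Equiv.symm_apply_apply]
  choose e' he' using fun j => hS (p j) (hS₀ (hpS j))
  let L : ℕ → MvPolynomial (Fin (ν + 1)) ℂ := fun j => ∑ i, C (l j i) * X i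
  have hL : ∀ j, (L j).IsHomogeneous 1 := by
    intro j
    refine IsHomogeneous.sum _ _ _ fun i _ => ?_
    have := (isHomogeneous_C (Fin (ν + 1)) (l j i)).mul (isHomogeneous_X ℂ i)
    simpa using this
  have hLe : ∀ j z, eval z (L j) = ∑ i, l j i * z i := by
    intro j z
    simp [L]
  let w : Fin (r + 2) → MvPolynomial (Fin (ν + 1)) ℂ := Fin.append p ![L 0, L 1]
  have hw1 : ∀ j, w (Fin.castAdd 2 j) = p j := fun j => Fin.append_left _ _ j
  have hw2 : ∀ j, w (Fin.natAdd r j) = ![L 0, L 1] j := fun j => Fin.append_right _ _ j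
  have hset : {n | ∀ g ∈ S, eval (iter f a n) g = 0} =
      {n | ∀ j : Fin r, eval (iter f a n) (w (Fin.castAdd 2 j)) = 0} := by
    ext n
    constructor
    · intro hn j
      rw [hw1]
      exact hn _ (hS₀ (hpS j))
    · intro hn
      refine hS₀v _ fun s hs => ?_
      obtain ⟨j, rfl⟩ := hpsurj s hs
      rw [← hw1]
      exact hn j
  have hRu : R Set.univ := by
    obtain ⟨T, hT⟩ := APSet_univ
    rw [hT]
    exact hRa T
  rw [hset]
  refine inductN (d := d) (Fin.castAdd 2) e' (fun _ w _ => LData r e' w) R hRu hRi ?_ ?_ ?_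
    f w a hf ?_ ha ?_
  · intro k _ _ _ K hK F W x hF hC hx B hB
    obtain ⟨A, hA, h⟩ := ldata_spec K hK hC
    exact ⟨A, hA, fun b hb f w z _ hw _ => h b hb w hw⟩
  · intro k _ _ _ K hK F W x hF hC hx hub hWh
    obtain ⟨A, hA⟩ := hunb k K hK F x hF hx hub r (fun j => W (Fin.castAdd 2 j))
      (fun j => ⟨_, hWh j⟩) (by
        refine curveSet_of_forms ?_ hC.hom0 hC.hom1 fun z hz h0 h1 =>
          hC.noz z (fun j => ?_) h0 h1
        · rintro g ⟨j, rfl⟩
          exact ⟨_, hC.hom j⟩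
        · exact hz _ ⟨j, rfl⟩)
    rw [hA]
    exact hRa A
  · intro f w a hfa hwa haa hf hC ha hwh
    have hSw : {n | ∀ j : Fin r, eval (iter f a n) (w (Fin.castAdd 2 j)) = 0} =
        {n | ∀ g ∈ Finset.univ.image fun j : Fin r => w (Fin.castAdd 2 j),
          eval (iter f a n) g = 0} := by
      ext n
      simp
    rw [hSw]
    refine halg f a _ ⟨hf, ha, hfa, haa, ?_, ?_, ?_⟩
    · intro g hg
      obtain ⟨j, -, rfl⟩ := Finset.mem_image.1 hg
      exact ⟨_, hwh j⟩
    · intro g hg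
      obtain ⟨j, -, rfl⟩ := Finset.mem_image.1 hg
      exact hwa _
    · refine krull_le_two (K := ℂ) ?_ hC.hom0 hC.hom1 ?_
      · intro g hg
        obtain ⟨j, -, rfl⟩ := Finset.mem_image.1 (Finset.mem_coe.1 hg)
        exact ⟨_, hwh j⟩
      · intro z hz h0 h1
        have hev : ∀ p : MvPolynomial (Fin (ν + 1)) ℂ, aeval z p = eval z p := fun p => by
          rw [aeval_def, Algebra.algebraMap_self, eval₂_id]
        refine hC.noz z (fun j => ?_) ((hev _).symm.trans h0) ((hev _).symm.trans h1)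
        exact (hev _).symm.trans
          (hz _ (Finset.mem_coe.2 (Finset.mem_image_of_mem _ (Finset.mem_univ j))))
  · refine ⟨fun j => ?_, ?_, ?_, ?_⟩
    · rw [hw1]
      exact he' j
    · rw [hw2]
      exact hL 0
    · rw [hw2]
      exact hL 1
    · intro z hz h0 h1
      refine hl z (hS₀v z fun s hs => ?_) ?_
      · obtain ⟨j, rfl⟩ := hpsurj s hs
        rw [← hw1]
        exact hz j
      · intro j hj
        have h2 : j = 0 ∨ j = 1 := by omega
        rcases h2 with rfl | rfl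
        · rw [← hLe, ← h0, hw2]
          rfl
        · rw [← hLe, ← h1, hw2]
          rfl
  · intro j
    rw [hw1]
    exact he' j

/-- The set is the intersection of a finite union of progressions and of finitely many return
sets of closed sets of dimension at most one over the algebraic numbers. -/
def RedCurve (ν d : ℕ) (T : Set ℕ) : Prop :=
  ∃ (A : Finset (ℕ × ℕ)) (r : ℕ) (φ : Fin r → Fin (ν + 1) → MvPolynomial (Fin (ν + 1)) ℂ)
    (z : Fin r → Fin (ν + 1) → ℂ) (S : Fin r → Finset (MvPolynomial (Fin (ν + 1)) ℂ)),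
    (∀ s, AlgCurve d (φ s) (z s) (S s)) ∧
      T = APSet A ∩ {n | ∀ s, ∀ g ∈ S s, eval (iter (φ s) (z s) n) g = 0}

theorem redCurve_AP (ν d : ℕ) (A : Finset (ℕ × ℕ)) : RedCurve ν d (APSet A) := by
  refine ⟨A, 0, Fin.elim0, Fin.elim0, Fin.elim0, fun s => s.elim0, ?_⟩
  ext n
  constructor
  · intro h
    exact ⟨h, fun s => s.elim0⟩
  · intro h
    exact h.1

theorem RedCurve.inter {d : ℕ} {S T : Set ℕ} (hS : RedCurve ν d S) (hT : RedCurve ν d T) :
    RedCurve ν d (S ∩ T) := by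
  obtain ⟨A, r, φ, z, γ, h1, rfl⟩ := hS
  obtain ⟨A', r', φ', z', γ', h1', rfl⟩ := hT
  obtain ⟨U, hU⟩ := APSet_inter A A'
  refine ⟨U, r + r', Fin.append φ φ', Fin.append z z', Fin.append γ γ', ?_, ?_⟩
  · intro s
    refine Fin.addCases (fun i => ?_) (fun i => ?_) s
    · simp only [Fin.append_left]
      exact h1 i
    · simp only [Fin.append_right]
      exact h1' i
  · rw [← hU]
    ext n
    constructor
    · rintro ⟨⟨h2, h3⟩, ⟨h4, h5⟩⟩
      refine ⟨⟨h2, h4⟩, fun s => ?_⟩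
      refine Fin.addCases (fun i => ?_) (fun i => ?_) s
      · simp only [Fin.append_left]
        exact h3 i
      · simp only [Fin.append_right]
        exact h5 i
    · rintro ⟨⟨h2, h4⟩, h⟩
      refine ⟨⟨h2, fun i => ?_⟩, ⟨h4, fun i => ?_⟩⟩
      · have := h (Fin.castAdd r' i)
        simpa only [Fin.append_left] using this
      · have := h (Fin.natAdd r i)
        simpa only [Fin.append_right] using this

/-- **Reduction to the algebraic numbers.** -/
theorem redCurve_of_unb {d : ℕ} (hunb : UnbC ν d)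
    {f : Fin (ν + 1) → MvPolynomial (Fin (ν + 1)) ℂ} (hf : IsEndo d f) {a : Fin (ν + 1) → ℂ}
    (ha : a ≠ 0) {S : Set (MvPolynomial (Fin (ν + 1)) ℂ)} (hS : ∀ g ∈ S, ∃ e, g.IsHomogeneous e)
    (hdim : ringKrullDim (MvPolynomial (Fin (ν + 1)) ℂ ⧸ Ideal.span S) ≤ 2) :
    RedCurve ν d {n | ∀ g ∈ S, eval (iter f a n) g = 0} := by
  refine curveN_induct (RedCurve ν d) (redCurve_AP ν d) (fun S T => RedCurve.inter) hunb ?_ hf ha
    hS hdim
  intro f a S hC
  obtain ⟨U, hU⟩ := APSet_univ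
  refine ⟨U, 1, fun _ => f, fun _ => a, fun _ => S, fun _ => hC, ?_⟩
  rw [← hU, Set.univ_inter]
  ext n
  exact ⟨fun h _ => h, fun h => h 0⟩

end Pool.Agent.Helper30.RED
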