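import Pool.Agent.Helper30.RED.Special
import Pool.Agent.Helper30.TP.Emb
import Pool.Agent.Helper38.TQ.PreperC
import Pool.Agent.Helper38.Sym.GenEngine

/-!
# Induction on the transcendence degree
-/

set_option autoImplicit false

namespace Pool.Agent.Helper30.RED

open MvPolynomial
open Pool.Agent.Helper16 (Place IsFunctionField)
open Pool.Agent.Helper36 (step iter iter_zero iter_succ iter_succ' iter_add iter_map)
open Pool.Agent.Helper38.TQ
open Pool.Agent.Helper30.TKN
open Pool.Agent.Helper30.TP (emb_mem_range emb_trdeg_le)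

variable {ν : ℕ}

/-! ### Fields -/

theorem alg_mono {F E : Type} [Field F] [Field E] [Algebra F ℂ] [Algebra E ℂ]
    (h : ∀ a : F, algebraMap F ℂ a ∈ Set.range (algebraMap E ℂ)) {c : ℂ}
    (hc : IsAlgebraic F c) : IsAlgebraic E c := by
  choose φ hφ using h
  let ψ : F →+* E :=
    { toFun := φ
      map_zero' := (algebraMap E ℂ).injective (by rw [hφ, map_zero, map_zero])
      map_one' := (algebraMap E ℂ).injective (by rw [hφ, map_one, map_one])
      map_add' := fun a b => (algebraMap E ℂ).injective (by
        rw [hφ, map_add, map_add, hφ, hφ])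
      map_mul' := fun a b => (algebraMap E ℂ).injective (by
        rw [hφ, map_mul, map_mul, hφ, hφ]) }
  obtain ⟨p, hp0, hp⟩ := hc
  refine ⟨p.map ψ, ?_, ?_⟩
  · intro h0
    exact hp0 ((Polynomial.map_eq_zero ψ).1 h0)
  · rw [Polynomial.aeval_def, Polynomial.eval₂_map]
    have h1 : (algebraMap E ℂ).comp ψ = algebraMap F ℂ := RingHom.ext fun a => hφ a
    rw [h1]
    exact hp

/-- Finitely many numbers which are algebraic over `k(t)` lie in a function field of one
variable. -/
theorem isFunctionField_adjoin {k : Type} [Field k] [IsAlgClosed k] [Algebra k ℂ] {t : ℂ}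
    (ht : t ∉ Set.range (algebraMap k ℂ)) {s : Set ℂ} (hs : s.Finite)
    (hsa : ∀ c ∈ s, IsAlgebraic (IntermediateField.adjoin k {t}) c) :
    IsFunctionField k (IntermediateField.adjoin k (insert t s)) := by
  have htr : Transcendental k t := by
    intro h
    obtain ⟨c, hc⟩ := emb_mem_range h
    exact ht ⟨c, hc⟩
  set K := IntermediateField.adjoin k (insert t s) with hK
  refine ⟨IntermediateField.essFiniteType_iff.2
    (IntermediateField.fg_adjoin_of_finite (hs.insert t)), ?_⟩
  apply le_antisymm
  · set F₁ := IntermediateField.adjoin k {t} with hF₁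
    let A : IntermediateField F₁ ℂ := algebraicClosure F₁ ℂ
    have h1 : Algebra.trdeg k A ≤ 1 := by
      have h2 := trdeg_add_eq k F₁ (A := A)
      have h3 : Algebra.trdeg F₁ A = 0 := trdeg_eq_zero
      rw [h3, add_zero] at h2
      rw [← h2]
      have h4 := emb_trdeg_le (k := k) ({t} : Set ℂ)
      rwa [Cardinal.mk_singleton] at h4
    have hle : K ≤ A.restrictScalars k := by
      rw [hK, IntermediateField.adjoin_le_iff]
      intro c hc
      change c ∈ A
      rw [mem_algebraicClosure_iff]
      rcases hc with rfl | hc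
      · exact isAlgebraic_algebraMap (R := F₁) (A := ℂ)
          (⟨c, IntermediateField.subset_adjoin k {c} rfl⟩ : F₁)
      · exact hsa c hc
    exact (trdeg_le_of_injective (IntermediateField.inclusion hle)
      (IntermediateField.inclusion_injective hle)).trans h1
  · rw [Cardinal.one_le_iff_ne_zero, trdeg_ne_zero_iff]
    refine ⟨⟨⟨t, IntermediateField.subset_adjoin k _ (Set.mem_insert _ _)⟩, ?_⟩⟩
    intro h
    exact htr (IsAlgebraic.algHom K.val h)

theorem exists_lift {k : Type} [Field k] [Algebra k ℂ] (K : IntermediateField k ℂ)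
    {σ : Type} {p : MvPolynomial σ ℂ} (h : ∀ c ∈ p.coeffs, c ∈ K) :
    ∃ P : MvPolynomial σ K, map (algebraMap K ℂ) P = p := by
  have h1 : p ∈ Set.range (map (σ := σ) (algebraMap K ℂ)) := by
    rw [mem_range_map_iff_coeffs_subset]
    intro c hc
    exact ⟨⟨c, h c hc⟩, rfl⟩
  exact h1

/-- The specialisation of an integral polynomial. -/
theorem redP_exists' {k K : Type} [Field k] [IsAlgClosed k] [Field K] [Algebra k K]
    (hK : IsFunctionField k K) (b : Place k K)
    {P : MvPolynomial (Fin (ν + 1)) K} (h : ∀ m, b.val (P.coeff m) ≤ 1) : ∃ p, RedP b P p := by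
  classical
  have h1 : ∀ m, ∃ c : k, b.val (P.coeff m - algebraMap k K c) < 1 ∧
      (P.coeff m = 0 → c = 0) := by
    intro m
    by_cases h0 : P.coeff m = 0
    · exact ⟨0, by simp [h0], fun _ => rfl⟩
    · obtain ⟨c, hc⟩ := exists_residue hK b (P.coeff m) (h m)
      exact ⟨c, hc, fun h => absurd h h0⟩
  choose c hc hc0 using h1
  refine ⟨∑ n ∈ P.support, monomial n (c n), fun m => ?_⟩
  have h2 : (∑ n ∈ P.support, monomial n (c n)).coeff m = c m := by
    rw [coeff_sum]
    simp only [coeff_monomial]
    rw [Finset.sum_ite_eq']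
    split_ifs with h
    · rfl
    · exact (hc0 m (notMem_support_iff.1 h)).symm
  rw [h2]
  exact hc m

/-- The values of the forms at the points of the orbit, over `K` and over `ℂ`. -/
theorem eval_iter_map {K : Type} [Field K] [Algebra K ℂ]
    (F : Fin (ν + 1) → MvPolynomial (Fin (ν + 1)) K) (x : Fin (ν + 1) → K)
    (g : MvPolynomial (Fin (ν + 1)) K) (n : ℕ) :
    eval (iter (fun i => map (algebraMap K ℂ) (F i)) (fun i => algebraMap K ℂ (x i)) n)
      (map (algebraMap K ℂ) g) = 0 ↔ eval (iter F x n) g = 0 := by
  have h1 : ∀ n, iter (fun i => map (algebraMap K ℂ) (F i)) (fun i => algebraMap K ℂ (x i)) n =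
      fun i => algebraMap K ℂ (iter F x n i) := by
    intro n
    induction n with
    | zero => rfl
    | succ n ih =>
      rw [iter_succ, ih, iter_succ]
      funext i
      change eval _ (map (algebraMap K ℂ) (F i)) = algebraMap K ℂ (eval (iter F x n) (F i))
      exact (Pool.Agent.Helper38.Sym.map_eval_gen (algebraMap K ℂ) _ _).symm
  rw [h1, ← Pool.Agent.Helper38.Sym.map_eval_gen, map_eq_zero_iff _ (algebraMap K ℂ).injective]

/-- **Induction on the transcendence degree.** A property `R` of return sets of the maps of some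
class `Cl` (given by a condition on the coefficients of the map and of some further polynomials)
holds in general if it holds over the algebraic numbers and for orbits of unbounded height over
function fields. -/
theorem induct {d N : ℕ}
    (Cl : (Fin (ν + 1) → MvPolynomial (Fin (ν + 1)) ℂ) →
      (Fin N → MvPolynomial (Fin (ν + 1)) ℂ) → Prop)
    (R : Set ℕ → Prop) (hRu : R Set.univ) (hRi : ∀ S T, R S → R T → R (S ∩ T))
    (hspec : ∀ (k : Type) [Field k] [IsAlgClosed k] [Algebra k ℂ] (K : IntermediateField k ℂ),
      IsFunctionField k K → ∀ (F : Fin (ν + 1) → MvPolynomial (Fin (ν + 1)) K)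
      (W : Fin N → MvPolynomial (Fin (ν + 1)) K),
      (IsEndo d fun i => map (algebraMap K ℂ) (F i)) →
      Cl (fun i => map (algebraMap K ℂ) (F i)) (fun j => map (algebraMap K ℂ) (W j)) →
      ∃ A : Set (Place k K), A.Finite ∧ ∀ b ∉ A,
        ∀ (f : Fin (ν + 1) → MvPolynomial (Fin (ν + 1)) k)
        (w : Fin N → MvPolynomial (Fin (ν + 1)) k), GoodRed d b F f →
          (∀ j, RedP b (W j) (w j)) →
          Cl (fun i => map (algebraMap k ℂ) (f i)) (fun j => map (algebraMap k ℂ) (w j)))
    (hunb : ∀ (k : Type) [Field k] [IsAlgClosed k] [Algebra k ℂ] (K : IntermediateField k ℂ),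
      IsFunctionField k K → ∀ (F : Fin (ν + 1) → MvPolynomial (Fin (ν + 1)) K)
      (W : Fin N → MvPolynomial (Fin (ν + 1)) K) (x : Fin (ν + 1) → K)
      (g : MvPolynomial (Fin (ν + 1)) K) (e : ℕ),
      (IsEndo d fun i => map (algebraMap K ℂ) (F i)) →
      Cl (fun i => map (algebraMap K ℂ) (F i)) (fun j => map (algebraMap K ℂ) (W j)) →
      x ≠ 0 → (∀ B : ℤ, ∃ n, B < ht k (iter F x n)) → g.IsHomogeneous e →
      R {n | eval (iter F x n) g = 0})
    (halg : ∀ (f : Fin (ν + 1) → MvPolynomial (Fin (ν + 1)) ℂ)
      (w : Fin N → MvPolynomial (Fin (ν + 1)) ℂ) (a : Fin (ν + 1) → ℂ)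
      (g : MvPolynomial (Fin (ν + 1)) ℂ) (e : ℕ), (∀ i m, IsAlgebraic ℚ ((f i).coeff m)) →
      (∀ j m, IsAlgebraic ℚ ((w j).coeff m)) → (∀ i, IsAlgebraic ℚ (a i)) →
      (∀ m, IsAlgebraic ℚ (g.coeff m)) → IsEndo d f → Cl f w → a ≠ 0 → g.IsHomogeneous e →
      R {n | eval (iter f a n) g = 0})
    (f : Fin (ν + 1) → MvPolynomial (Fin (ν + 1)) ℂ)
    (w : Fin N → MvPolynomial (Fin (ν + 1)) ℂ) (a : Fin (ν + 1) → ℂ)
    (g : MvPolynomial (Fin (ν + 1)) ℂ) (e : ℕ) (hf : IsEndo d f) (hcl : Cl f w) (ha : a ≠ 0)
    (hg : g.IsHomogeneous e) : R {n | eval (iter f a n) g = 0} := by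
  classical
  have key : ∀ s : Finset ℂ, ∀ (f : Fin (ν + 1) → MvPolynomial (Fin (ν + 1)) ℂ)
      (w : Fin N → MvPolynomial (Fin (ν + 1)) ℂ) (a : Fin (ν + 1) → ℂ)
      (g : MvPolynomial (Fin (ν + 1)) ℂ),
      (∀ i m, IsAlgebraic (IntermediateField.adjoin ℚ (s : Set ℂ)) ((f i).coeff m)) →
      (∀ j m, IsAlgebraic (IntermediateField.adjoin ℚ (s : Set ℂ)) ((w j).coeff m)) →
      (∀ i, IsAlgebraic (IntermediateField.adjoin ℚ (s : Set ℂ)) (a i)) →
      (∀ m, IsAlgebraic (IntermediateField.adjoin ℚ (s : Set ℂ)) (g.coeff m)) →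
      IsEndo d f → Cl f w → a ≠ 0 → g.IsHomogeneous e →
      R {n | eval (iter f a n) g = 0} := by
    intro s
    induction s using Finset.induction_on with
    | empty =>
      intro f w a g hf1 hw1 ha1 hg1 hf hcl ha hg
      have h1 : ∀ c : ℂ, IsAlgebraic (IntermediateField.adjoin ℚ ((∅ : Finset ℂ) : Set ℂ)) c →
          IsAlgebraic ℚ c := by
        intro c hc
        refine alg_mono ?_ hc
        have h3 : IntermediateField.adjoin ℚ ((∅ : Finset ℂ) : Set ℂ) = ⊥ := by
          rw [Finset.coe_empty, IntermediateField.adjoin_empty]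
        have h4 : ∀ z : ℂ, z ∈ IntermediateField.adjoin ℚ ((∅ : Finset ℂ) : Set ℂ) →
            z ∈ Set.range (algebraMap ℚ ℂ) := by
          intro z hz
          rw [h3] at hz
          exact IntermediateField.mem_bot.1 hz
        exact fun y => h4 _ y.2
      exact halg f w a g e (fun i m => h1 _ (hf1 i m)) (fun j m => h1 _ (hw1 j m))
        (fun i => h1 _ (ha1 i)) (fun m => h1 _ (hg1 m)) hf hcl ha hg
    | insert t s hts ih =>
      intro f w a g hf1 hw1 ha1 hg1 hf hcl ha hg
      set Q₀ := IntermediateField.adjoin ℚ (s : Set ℂ) with hQ₀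
      set Q₁ := IntermediateField.adjoin ℚ ((insert t s : Finset ℂ) : Set ℂ) with hQ₁
      let k : IntermediateField Q₀ ℂ := algebraicClosure Q₀ ℂ
      haveI hkcl : IsAlgClosed k := IsAlgClosure.isAlgClosed Q₀
      have hmemk : ∀ c : ℂ, c ∈ k ↔ IsAlgebraic Q₀ c := fun c => mem_algebraicClosure_iff
      by_cases htk : t ∈ k
      · -- `t` is algebraic
        have h1 : ∀ c : ℂ, IsAlgebraic Q₁ c → IsAlgebraic Q₀ c := by
          intro c hc
          have h2 : IsAlgebraic k c := by
            refine alg_mono ?_ hc
            intro y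
            have hle : Q₁ ≤ k.restrictScalars ℚ := by
              rw [hQ₁, IntermediateField.adjoin_le_iff]
              intro z hz
              rw [Finset.coe_insert] at hz
              rcases hz with rfl | hz
              · exact htk
              · change z ∈ k
                rw [hmemk]
                exact isAlgebraic_algebraMap (R := Q₀) (A := ℂ)
                  (⟨z, IntermediateField.subset_adjoin ℚ _ hz⟩ : Q₀)
            exact ⟨⟨(y : ℂ), hle y.2⟩, rfl⟩
          obtain ⟨c', hc'⟩ := emb_mem_range h2
          rw [← hmemk, ← hc']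
          exact c'.2
        exact ih f w a g (fun i m => h1 _ (hf1 i m)) (fun j m => h1 _ (hw1 j m))
          (fun i => h1 _ (ha1 i)) (fun m => h1 _ (hg1 m)) hf hcl ha hg
      · -- `t` is transcendental
        have htk' : t ∉ Set.range (algebraMap k ℂ) := by
          rintro ⟨c, rfl⟩
          exact htk c.2
        have h1 : ∀ c : ℂ, IsAlgebraic Q₁ c →
            IsAlgebraic (IntermediateField.adjoin k {t}) c := by
          intro c hc
          refine alg_mono ?_ hc
          intro y
          have hle : (Q₁ : Set ℂ) ⊆ (IntermediateField.adjoin k ({t} : Set ℂ) : Set ℂ) := by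
            have h2 : Q₁ ≤ ((IntermediateField.adjoin k ({t} : Set ℂ)).restrictScalars
                Q₀).restrictScalars ℚ := by
              rw [hQ₁, IntermediateField.adjoin_le_iff]
              intro z hz
              rw [Finset.coe_insert] at hz
              rcases hz with rfl | hz
              · exact IntermediateField.subset_adjoin k _ rfl
              · have h3 : z ∈ k := by
                  rw [hmemk]
                  exact isAlgebraic_algebraMap (R := Q₀) (A := ℂ)
                    (⟨z, IntermediateField.subset_adjoin ℚ _ hz⟩ : Q₀)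
                exact (IntermediateField.adjoin k ({t} : Set ℂ)).algebraMap_mem ⟨z, h3⟩
            exact h2
          exact ⟨⟨(y : ℂ), hle y.2⟩, rfl⟩
        set S : Set ℂ := ((⋃ i, ((f i).coeffs : Set ℂ)) ∪ ⋃ j, ((w j).coeffs : Set ℂ)) ∪
          (Set.range a ∪ (g.coeffs : Set ℂ)) with hS
        have hSf : S.Finite := ((Set.finite_iUnion fun i => (f i).coeffs.finite_toSet).union
          (Set.finite_iUnion fun j => (w j).coeffs.finite_toSet)).union
          ((Set.finite_range a).union g.coeffs.finite_toSet)
        have hSa : ∀ c ∈ S, IsAlgebraic (IntermediateField.adjoin k {t}) c := by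
          rintro c ((hc | hc) | (⟨i, rfl⟩ | hc))
          · obtain ⟨i, hi⟩ := Set.mem_iUnion.1 hc
            obtain ⟨m, hm⟩ := mem_coeffs_iff.1 hi
            rw [hm.2]
            exact h1 _ (hf1 i m)
          · obtain ⟨i, hi⟩ := Set.mem_iUnion.1 hc
            obtain ⟨m, hm⟩ := mem_coeffs_iff.1 hi
            rw [hm.2]
            exact h1 _ (hw1 i m)
          · exact h1 _ (ha1 i)
          · obtain ⟨m, hm⟩ := mem_coeffs_iff.1 hc
            rw [hm.2]
            exact h1 _ (hg1 m)
        set K := IntermediateField.adjoin k (insert t S) with hKdef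
        have hK : IsFunctionField k K := isFunctionField_adjoin htk' hSf hSa
        have hmem : ∀ c ∈ S, c ∈ K := fun c hc =>
          IntermediateField.subset_adjoin k _ (Set.mem_insert_of_mem _ hc)
        choose F hF using fun i => exists_lift K (p := f i) fun c hc =>
          hmem c (Or.inl (Or.inl (Set.mem_iUnion.2 ⟨i, hc⟩)))
        choose W hW using fun j => exists_lift K (p := w j) fun c hc =>
          hmem c (Or.inl (Or.inr (Set.mem_iUnion.2 ⟨j, hc⟩)))
        obtain ⟨G, hG⟩ := exists_lift K (p := g) fun c hc => hmem c (Or.inr (Or.inr hc))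
        let x : Fin (ν + 1) → K := fun i => ⟨a i, hmem _ (Or.inr (Or.inl ⟨i, rfl⟩))⟩
        have hxa : (fun i => algebraMap K ℂ (x i)) = a := rfl
        have hFf : (fun i => map (algebraMap K ℂ) (F i)) = f := funext hF
        have hWw : (fun j => map (algebraMap K ℂ) (W j)) = w := funext hW
        have hx : x ≠ 0 := by
          intro h
          apply ha
          funext i
          exact congrArg (algebraMap K ℂ) (congrFun h i)
        have hGh : G.IsHomogeneous e := by
          intro m hm
          refine hg ?_
          rw [← hG, coeff_map]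
          simpa using hm
        have hset : {n | eval (iter f a n) g = 0} = {n | eval (iter F x n) G = 0} := by
          ext n
          change eval (iter f a n) g = 0 ↔ eval (iter F x n) G = 0
          rw [← eval_iter_map F x G n, hFf, hxa, hG]
        rw [hset]
        by_cases hu : ∀ B : ℤ, ∃ n, B < ht k (iter F x n)
        · exact hunb k K hK F W x G e (by rw [hFf]; exact hf) (by rw [hFf, hWw]; exact hcl) hx hu
            hGh
        push Not at hu
        obtain ⟨B, hB⟩ := hu
        by_cases hG0 : G = 0
        · have : {n | eval (iter F x n) G = 0} = Set.univ := by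
            apply Set.eq_univ_of_forall
            intro n
            change eval _ G = 0
            rw [hG0, map_zero]
          rw [this]
          exact hRu
        have hFe : IsEndo d fun i => map (algebraMap K ℂ) (F i) := by rw [hFf]; exact hf
        obtain ⟨A, hA, hAb⟩ := hspec k K hK F W hFe (by rw [hFf, hWw]; exact hcl)
        have hA2 : (⋃ j, {b : Place k K | ¬ ∀ m, b.val ((W j).coeff m) ≤ 1}).Finite :=
          Set.finite_iUnion fun j => Good2_fin hK (W j)
        obtain ⟨r, b, φ, z, γ, hall, hiff⟩ := exists_specialisations hK hFe hx B hB hGh hG0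
          (A ∪ ⋃ j, {b : Place k K | ¬ ∀ m, b.val ((W j).coeff m) ≤ 1}) (hA.union hA2)
        have hone : ∀ s : Fin r, R {n | eval (iter (φ s) (z s) n) (γ s) = 0} := by
          intro s
          obtain ⟨hb, hgr, hred, hγ, hγh⟩ := hall s
          have hWint : ∀ j, ∀ m, (b s).val ((W j).coeff m) ≤ 1 := by
            intro j
            by_contra hcon
            exact hb (Or.inr (Set.mem_iUnion.2 ⟨j, hcon⟩))
          choose ω hω using fun j => redP_exists' hK (b s) (hWint j)
          have hcl' := hAb (b s) (fun h => hb (Or.inl h)) (φ s) ω hgr hω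
          have halgk : ∀ c : k, IsAlgebraic Q₀ (algebraMap k ℂ c) := fun c =>
            (hmemk _).1 c.2
          have h5 := ih (fun i => map (algebraMap k ℂ) (φ s i))
            (fun j => map (algebraMap k ℂ) (ω j)) (fun i => algebraMap k ℂ (z s i))
            (map (algebraMap k ℂ) (γ s))
            (fun i m => by rw [coeff_map]; exact halgk _)
            (fun j m => by rw [coeff_map]; exact halgk _)
            (fun i => halgk _) (fun m => by rw [coeff_map]; exact halgk _)
            hgr.endo.map hcl' (by
              intro h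
              apply hred.1
              funext i
              exact (algebraMap k ℂ).injective ((congrFun h i).trans (map_zero _).symm))
            (hγh.map _)
          have h6 : {n | eval (iter (fun i => map (algebraMap k ℂ) (φ s i))
              (fun i => algebraMap k ℂ (z s i)) n) (map (algebraMap k ℂ) (γ s)) = 0} =
              {n | eval (iter (φ s) (z s) n) (γ s) = 0} := by
            ext n
            exact eval_iter_map (φ s) (z s) (γ s) n
          rwa [h6] at h5
        have h7 : {n | eval (iter F x n) G = 0} =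
            ⋂ s : Fin r, {n | eval (iter (φ s) (z s) n) (γ s) = 0} := by
          ext n
          rw [Set.mem_iInter]
          exact hiff n
        rw [h7]
        have h8 : ∀ (r : ℕ) (X : Fin r → Set ℕ), (∀ s, R (X s)) → R (⋂ s, X s) := by
          intro r
          induction r with
          | zero =>
            intro X _
            rw [Set.iInter_of_empty]
            exact hRu
          | succ r ihr =>
            intro X hX
            have h9 : (⋂ s, X s) = X 0 ∩ ⋂ s : Fin r, X s.succ := by
              ext n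
              simp only [Set.mem_iInter, Set.mem_inter_iff]
              constructor
              · intro h
                exact ⟨h 0, fun s => h s.succ⟩
              · rintro ⟨h0, h⟩ s
                induction s using Fin.cases with
                | zero => exact h0
                | succ s => exact h s
            rw [h9]
            exact hRi _ _ (hX 0) (ihr _ fun s => hX s.succ)
        exact h8 r _ hone
  -- the finite set of all the coefficients
  set s : Finset ℂ := ((Finset.univ.biUnion fun i => (f i).coeffs) ∪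
    (Finset.univ.biUnion fun j => (w j).coeffs)) ∪ (Finset.univ.image a ∪ g.coeffs) with hs
  have hmem : ∀ c ∈ s, IsAlgebraic (IntermediateField.adjoin ℚ (s : Set ℂ)) c := fun c hc =>
    isAlgebraic_algebraMap (R := IntermediateField.adjoin ℚ (s : Set ℂ)) (A := ℂ)
      (⟨c, IntermediateField.subset_adjoin ℚ _ hc⟩ : IntermediateField.adjoin ℚ (s : Set ℂ))
  have hcoef : ∀ p : MvPolynomial (Fin (ν + 1)) ℂ, (p.coeffs ⊆ s) → ∀ m,
      IsAlgebraic (IntermediateField.adjoin ℚ (s : Set ℂ)) (p.coeff m) := by
    intro p hp m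
    by_cases h0 : p.coeff m = 0
    · rw [h0]
      exact isAlgebraic_zero
    · exact hmem _ (hp (coeff_mem_coeffs m h0))
  refine key s f w a g (fun i => hcoef _ ?_) (fun j => hcoef _ ?_) (fun i => hmem _ ?_)
    (hcoef _ ?_) hf hcl ha hg
  · intro c hc
    exact Finset.mem_union_left _ (Finset.mem_union_left _
      (Finset.mem_biUnion.2 ⟨i, Finset.mem_univ _, hc⟩))
  · intro c hc
    exact Finset.mem_union_left _ (Finset.mem_union_right _
      (Finset.mem_biUnion.2 ⟨j, Finset.mem_univ _, hc⟩))
  · exact Finset.mem_union_right _ (Finset.mem_union_left _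
      (Finset.mem_image.2 ⟨i, Finset.mem_univ _, rfl⟩))
  · intro c hc
    exact Finset.mem_union_right _ (Finset.mem_union_right _ hc)

/-- Finitely many of the forms define the same closed set. -/
theorem exists_finite_subfamily {σ : Type} [Finite σ] (S : Set (MvPolynomial σ ℂ)) :
    ∃ S₀ : Finset (MvPolynomial σ ℂ), (S₀ : Set (MvPolynomial σ ℂ)) ⊆ S ∧
      ∀ y : σ → ℂ, (∀ g ∈ S₀, eval y g = 0) → ∀ g ∈ S, eval y g = 0 := by
  obtain ⟨S₀, h1, h2⟩ := (Submodule.fg_span_iff_fg_span_finset_subset (R := MvPolynomial σ ℂ) S).1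
    (IsNoetherian.noetherian _)
  refine ⟨S₀, h1, fun y hy g hg => ?_⟩
  have h3 : g ∈ Ideal.span (S₀ : Set (MvPolynomial σ ℂ)) := by
    have h4 : g ∈ Submodule.span (MvPolynomial σ ℂ) S := Submodule.subset_span hg
    rw [h2] at h4
    exact h4
  have h5 : Ideal.span (S₀ : Set (MvPolynomial σ ℂ)) ≤ RingHom.ker (eval y) := by
    rw [Ideal.span_le]
    intro p hp
    exact hy p hp
  exact h5 h3

/-- From hypersurfaces to closed sets. -/
theorem closed_of_forms (R : Set ℕ → Prop) (hRu : R Set.univ)
    (hRi : ∀ S T, R S → R T → R (S ∩ T)) {f : Fin (ν + 1) → MvPolynomial (Fin (ν + 1)) ℂ}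
    {a : Fin (ν + 1) → ℂ}
    (h : ∀ (g : MvPolynomial (Fin (ν + 1)) ℂ) (e : ℕ), g.IsHomogeneous e →
      R {n | eval (iter f a n) g = 0})
    {S : Set (MvPolynomial (Fin (ν + 1)) ℂ)} (hS : ∀ g ∈ S, ∃ e, g.IsHomogeneous e) :
    R {n | ∀ g ∈ S, eval (iter f a n) g = 0} := by
  classical
  obtain ⟨S₀, h1, h2⟩ := exists_finite_subfamily S
  have h3 : {n | ∀ g ∈ S, eval (iter f a n) g = 0} =
      {n | ∀ g ∈ S₀, eval (iter f a n) g = 0} := by
    ext n
    exact ⟨fun hn g hg => hn g (h1 hg), fun hn => h2 _ hn⟩
  rw [h3]
  have h4 : ∀ T : Finset (MvPolynomial (Fin (ν + 1)) ℂ),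
      (T : Set (MvPolynomial (Fin (ν + 1)) ℂ)) ⊆ S →
      R {n | ∀ g ∈ T, eval (iter f a n) g = 0} := by
    intro T
    induction T using Finset.induction_on with
    | empty =>
      intro _
      have : {n | ∀ g ∈ (∅ : Finset (MvPolynomial (Fin (ν + 1)) ℂ)),
          eval (iter f a n) g = 0} = Set.univ :=
        Set.eq_univ_of_forall fun n g hg => absurd hg (Finset.notMem_empty g)
      rw [this]
      exact hRu
    | insert g T _ ih =>
      intro hT
      have h5 : {n | ∀ g' ∈ insert g T, eval (iter f a n) g' = 0} =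
          {n | eval (iter f a n) g = 0} ∩ {n | ∀ g' ∈ T, eval (iter f a n) g' = 0} := by
        ext n
        exact Finset.forall_mem_insert _ _ _
      rw [h5]
      obtain ⟨e, he⟩ := hS g (hT (Finset.mem_coe.2 (Finset.mem_insert_self _ _)))
      exact hRi _ _ (h g e he) (ih fun g' hg' => hT (Finset.mem_coe.2
        (Finset.mem_insert_of_mem (Finset.mem_coe.1 hg'))))
  exact h4 S₀ h1

end Pool.Agent.Helper30.RED
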