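import Pool.Agent.Helper30.RED.SpecData

/-!
# Induction on the transcendence degree: classes which depend on the point, several forms
-/

set_option autoImplicit false

namespace Pool.Agent.Helper30.RED

open MvPolynomial
open Pool.Agent.Helper16 (Place IsFunctionField)
open Pool.Agent.Helper36 (step iter iter_zero iter_succ iter_succ' iter_add iter_map)
open Pool.Agent.Helper38.TQ
open Pool.Agent.Helper30.TKN
open Pool.Agent.Helper30.TP (emb_mem_range emb_trdeg_le)

variable {ν : ℕ}

/-- A finite intersection. -/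
theorem iInter_closed {R : Set ℕ → Prop} (hRu : R Set.univ)
    (hRi : ∀ S T, R S → R T → R (S ∩ T)) {κ : Type} [Finite κ] (X : κ → Set ℕ)
    (h : ∀ s, R (X s)) : R (⋂ s, X s) := by
  classical
  haveI := Fintype.ofFinite κ
  have h1 : ∀ s : Finset κ, R (⋂ i ∈ s, X i) := by
    intro s
    induction s using Finset.induction_on with
    | empty => simpa using hRu
    | insert a s _ ih =>
      rw [Finset.set_biInter_insert]
      exact hRi _ _ (h a) ih
  have h2 := h1 Finset.univ
  simpa using h2

/-- Several forms: if the heights of the points of an orbit are bounded, then the return set is a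
finite intersection of return sets of specialisations. -/
theorem exists_specialisationsN {k K : Type} [Field k] [IsAlgClosed k] [Field K] [Algebra k K]
    [Algebra K ℂ] (hK : IsFunctionField k K) {d : ℕ}
    {F : Fin (ν + 1) → MvPolynomial (Fin (ν + 1)) K}
    (hF : IsEndo d fun i => map (algebraMap K ℂ) (F i)) {x : Fin (ν + 1) → K} (hx : x ≠ 0)
    (B : ℤ) (hB : ∀ n, ht k (iter F x n) ≤ B) {N r : ℕ} (ι : Fin r → Fin N) (e : Fin r → ℕ)
    (W : Fin N → MvPolynomial (Fin (ν + 1)) K) (hW : ∀ j, (W (ι j)).IsHomogeneous (e j))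
    (A : Set (Place k K)) (hA : A.Finite) :
    ∃ (κ : Type) (_ : Finite κ) (b : κ → Place k K)
      (f : κ → Fin (ν + 1) → MvPolynomial (Fin (ν + 1)) k) (z : κ → Fin (ν + 1) → k)
      (w : κ → Fin N → MvPolynomial (Fin (ν + 1)) k),
      (∀ s, b s ∉ A ∧ GoodRed d (b s) F (f s) ∧ Red (b s) x (z s) ∧
        ∀ j, RedP (b s) (W j) (w s j)) ∧
      ∀ n, (∀ j, eval (iter F x n) (W (ι j)) = 0) ↔
        ∀ s, ∀ j, eval (iter (f s) (z s) n) (w s (ι j)) = 0 := by
  classical
  have hhom : ∀ i, (F i).IsHomogeneous d := by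
    intro i m hm
    refine hF.hom i ?_
    rw [coeff_map]
    simpa using hm
  have hA2 : (⋃ j, {b : Place k K | ¬ ∀ m, b.val ((W j).coeff m) ≤ 1}).Finite :=
    Set.finite_iUnion fun j => Good2_fin hK (W j)
  set A' : Set (Place k K) := A ∪ ⋃ j, {b : Place k K | ¬ ∀ m, b.val ((W j).coeff m) ≤ 1} with hA'
  have hint : ∀ b ∉ A', ∀ j m, b.val ((W j).coeff m) ≤ 1 := by
    intro b hb j
    by_contra hcon
    exact hb (Or.inr (Set.mem_iUnion.2 ⟨j, hcon⟩))
  have hone : ∀ j : Fin r, ∃ (r : ℕ) (b : Fin r → Place k K)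
      (f : Fin r → Fin (ν + 1) → MvPolynomial (Fin (ν + 1)) k)
      (z : Fin r → Fin (ν + 1) → k) (γ : Fin r → MvPolynomial (Fin (ν + 1)) k),
      (∀ s, b s ∉ A' ∧ GoodRed d (b s) F (f s) ∧ Red (b s) x (z s) ∧
        RedP (b s) (W (ι j)) (γ s)) ∧
      ∀ n, (∀ s, eval (iter (f s) (z s) n) (γ s) = 0) → eval (iter F x n) (W (ι j)) = 0 := by
    intro j
    by_cases h0 : W (ι j) = 0
    · refine ⟨0, Fin.elim0, Fin.elim0, Fin.elim0, Fin.elim0, fun s => s.elim0, fun n _ => ?_⟩
      rw [h0, map_zero]
    · obtain ⟨r, b, f, z, γ, h1, h2⟩ := exists_specialisations hK hF hx B hB (hW j) h0 A'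
        (hA.union hA2)
      exact ⟨r, b, f, z, γ, fun s => ⟨(h1 s).1, (h1 s).2.1, (h1 s).2.2.1, (h1 s).2.2.2.1⟩,
        fun n => (h2 n).2⟩
  choose rr b f z γ h1 h2 using hone
  have h3 : ∀ (j : Fin r) (s : Fin (rr j)), ∃ w : Fin N → MvPolynomial (Fin (ν + 1)) k,
      ∀ j', RedP (b j s) (W j') (w j') := by
    intro j s
    choose w hw using fun j' => redP_exists' hK (b j s) (hint _ (h1 j s).1 j')
    exact ⟨w, hw⟩
  choose w hw using h3
  refine ⟨Σ j : Fin r, Fin (rr j), inferInstance, fun p => b p.1 p.2, fun p => f p.1 p.2,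
    fun p => z p.1 p.2, fun p => w p.1 p.2, fun p => ⟨fun h => (h1 p.1 p.2).1 (Or.inl h),
      (h1 p.1 p.2).2.1, (h1 p.1 p.2).2.2.1, hw p.1 p.2⟩, fun n => ⟨fun h p j => ?_, fun h j => ?_⟩⟩
  · have hred : Red (b p.1 p.2) (iter F x n) (iter (f p.1 p.2) (z p.1 p.2) n) :=
      (h1 p.1 p.2).2.1.iter hhom (h1 p.1 p.2).2.2.1 n
    have hne : iter F x n ≠ 0 := by
      intro h0
      obtain ⟨hw, c, hc, h4⟩ := hred
      apply hw
      funext i
      by_contra h5
      have h6 := h4 i
      rw [h0, Pi.zero_apply, mul_zero, zero_sub, Valuation.map_neg, (b p.1 p.2).triv _ h5] at h6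
      exact lt_irrefl _ h6
    rw [red_eval_iff (hW j) (hw p.1 p.2 (ι j)) hred, h j, map_zero]
    exact zero_lt_iff.2 (pow_ne_zero _ (nrm_ne_zero hne))
  · refine h2 j n fun s => ?_
    have h4 : γ j s = w j s (ι j) := RedP.unique (h1 j s).2.2.2 (hw j s (ι j))
    rw [h4]
    exact h ⟨j, s⟩ j

/-- **Induction on the transcendence degree**, for classes which depend on the point. -/
theorem inductN {d N r : ℕ} (ι : Fin r → Fin N) (e : Fin r → ℕ)
    (Cl : (Fin (ν + 1) → MvPolynomial (Fin (ν + 1)) ℂ) →
      (Fin N → MvPolynomial (Fin (ν + 1)) ℂ) → (Fin (ν + 1) → ℂ) → Prop)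
    (R : Set ℕ → Prop) (hRu : R Set.univ) (hRi : ∀ S T, R S → R T → R (S ∩ T))
    (hspec : ∀ (k : Type) [Field k] [IsAlgClosed k] [Algebra k ℂ] (K : IntermediateField k ℂ),
      IsFunctionField k K → ∀ (F : Fin (ν + 1) → MvPolynomial (Fin (ν + 1)) K)
      (W : Fin N → MvPolynomial (Fin (ν + 1)) K) (x : Fin (ν + 1) → K),
      (IsEndo d fun i => map (algebraMap K ℂ) (F i)) →
      Cl (fun i => map (algebraMap K ℂ) (F i)) (fun j => map (algebraMap K ℂ) (W j))
        (fun i => algebraMap K ℂ (x i)) → x ≠ 0 →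
      ∀ B : ℤ, (∀ n, ht k (iter F x n) ≤ B) →
      ∃ A : Set (Place k K), A.Finite ∧ ∀ b ∉ A,
        ∀ (f : Fin (ν + 1) → MvPolynomial (Fin (ν + 1)) k)
        (w : Fin N → MvPolynomial (Fin (ν + 1)) k) (z : Fin (ν + 1) → k), GoodRed d b F f →
          (∀ j, RedP b (W j) (w j)) → Red b x z →
          Cl (fun i => map (algebraMap k ℂ) (f i)) (fun j => map (algebraMap k ℂ) (w j))
            (fun i => algebraMap k ℂ (z i)))
    (hunb : ∀ (k : Type) [Field k] [IsAlgClosed k] [Algebra k ℂ] (K : IntermediateField k ℂ),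
      IsFunctionField k K → ∀ (F : Fin (ν + 1) → MvPolynomial (Fin (ν + 1)) K)
      (W : Fin N → MvPolynomial (Fin (ν + 1)) K) (x : Fin (ν + 1) → K),
      (IsEndo d fun i => map (algebraMap K ℂ) (F i)) →
      Cl (fun i => map (algebraMap K ℂ) (F i)) (fun j => map (algebraMap K ℂ) (W j))
        (fun i => algebraMap K ℂ (x i)) →
      x ≠ 0 → (∀ B : ℤ, ∃ n, B < ht k (iter F x n)) → (∀ j, (W (ι j)).IsHomogeneous (e j)) →
      R {n | ∀ j, eval (iter F x n) (W (ι j)) = 0})
    (halg : ∀ (f : Fin (ν + 1) → MvPolynomial (Fin (ν + 1)) ℂ)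
      (w : Fin N → MvPolynomial (Fin (ν + 1)) ℂ) (a : Fin (ν + 1) → ℂ),
      (∀ i m, IsAlgebraic ℚ ((f i).coeff m)) →
      (∀ j m, IsAlgebraic ℚ ((w j).coeff m)) → (∀ i, IsAlgebraic ℚ (a i)) →
      IsEndo d f → Cl f w a → a ≠ 0 → (∀ j, (w (ι j)).IsHomogeneous (e j)) →
      R {n | ∀ j, eval (iter f a n) (w (ι j)) = 0})
    (f : Fin (ν + 1) → MvPolynomial (Fin (ν + 1)) ℂ)
    (w : Fin N → MvPolynomial (Fin (ν + 1)) ℂ) (a : Fin (ν + 1) → ℂ) (hf : IsEndo d f)
    (hcl : Cl f w a) (ha : a ≠ 0) (hg : ∀ j, (w (ι j)).IsHomogeneous (e j)) :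
    R {n | ∀ j, eval (iter f a n) (w (ι j)) = 0} := by
  classical
  have key : ∀ s : Finset ℂ, ∀ (f : Fin (ν + 1) → MvPolynomial (Fin (ν + 1)) ℂ)
      (w : Fin N → MvPolynomial (Fin (ν + 1)) ℂ) (a : Fin (ν + 1) → ℂ),
      (∀ i m, IsAlgebraic (IntermediateField.adjoin ℚ (s : Set ℂ)) ((f i).coeff m)) →
      (∀ j m, IsAlgebraic (IntermediateField.adjoin ℚ (s : Set ℂ)) ((w j).coeff m)) →
      (∀ i, IsAlgebraic (IntermediateField.adjoin ℚ (s : Set ℂ)) (a i)) →
      IsEndo d f → Cl f w a → a ≠ 0 → (∀ j, (w (ι j)).IsHomogeneous (e j)) →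
      R {n | ∀ j, eval (iter f a n) (w (ι j)) = 0} := by
    intro s
    induction s using Finset.induction_on with
    | empty =>
      intro f w a hf1 hw1 ha1 hf hcl ha hg
      have h1 : ∀ c : ℂ, IsAlgebraic (IntermediateField.adjoin ℚ ((∅ : Finset ℂ) : Set ℂ)) c →
          IsAlgebraic ℚ c := by
        intro c hc
        refine alg_mono ?_ hc
        have h3 : IntermediateField.adjoin ℚ ((∅ : Finset ℂ) : Set ℂ) = ⊥ := by
          rw [Finset.coe_empty, IntermediateField.adjoin_empty]
        have h4 : ∀ z : ℂ, z ∈ IntermediateField.adjoin ℚ ((∅ : Finset ℂ) : Set ℂ) →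
            z ∈ Set.range (algebraMap ℚ ℂ) := by
          intro z hz
          rw [h3] at hz
          exact IntermediateField.mem_bot.1 hz
        exact fun y => h4 _ y.2
      exact halg f w a (fun i m => h1 _ (hf1 i m)) (fun j m => h1 _ (hw1 j m))
        (fun i => h1 _ (ha1 i)) hf hcl ha hg
    | insert t s hts ih =>
      intro f w a hf1 hw1 ha1 hf hcl ha hg
      set Q₀ := IntermediateField.adjoin ℚ (s : Set ℂ) with hQ₀
      set Q₁ := IntermediateField.adjoin ℚ ((insert t s : Finset ℂ) : Set ℂ) with hQ₁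
      let k : IntermediateField Q₀ ℂ := algebraicClosure Q₀ ℂ
      haveI hkcl : IsAlgClosed k := IsAlgClosure.isAlgClosed Q₀
      have hmemk : ∀ c : ℂ, c ∈ k ↔ IsAlgebraic Q₀ c := fun c => mem_algebraicClosure_iff
      by_cases htk : t ∈ k
      · -- `t` is algebraic
        have h1 : ∀ c : ℂ, IsAlgebraic Q₁ c → IsAlgebraic Q₀ c := by
          intro c hc
          have h2 : IsAlgebraic k c := by
            refine alg_mono ?_ hc
            intro y
            have hle : Q₁ ≤ k.restrictScalars ℚ := by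
              rw [hQ₁, IntermediateField.adjoin_le_iff]
              intro z hz
              rw [Finset.coe_insert] at hz
              rcases hz with rfl | hz
              · exact htk
              · change z ∈ k
                rw [hmemk]
                exact isAlgebraic_algebraMap (R := Q₀) (A := ℂ)
                  (⟨z, IntermediateField.subset_adjoin ℚ _ hz⟩ : Q₀)
            exact ⟨⟨(y : ℂ), hle y.2⟩, rfl⟩
          obtain ⟨c', hc'⟩ := emb_mem_range h2
          rw [← hmemk, ← hc']
          exact c'.2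
        exact ih f w a (fun i m => h1 _ (hf1 i m)) (fun j m => h1 _ (hw1 j m))
          (fun i => h1 _ (ha1 i)) hf hcl ha hg
      · -- `t` is transcendental
        have htk' : t ∉ Set.range (algebraMap k ℂ) := by
          rintro ⟨c, rfl⟩
          exact htk c.2
        have h1 : ∀ c : ℂ, IsAlgebraic Q₁ c →
            IsAlgebraic (IntermediateField.adjoin k {t}) c := by
          intro c hc
          refine alg_mono ?_ hc
          intro y
          have hle : (Q₁ : Set ℂ) ⊆ (IntermediateField.adjoin k ({t} : Set ℂ) : Set ℂ) := by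
            have h2 : Q₁ ≤ ((IntermediateField.adjoin k ({t} : Set ℂ)).restrictScalars
                Q₀).restrictScalars ℚ := by
              rw [hQ₁, IntermediateField.adjoin_le_iff]
              intro z hz
              rw [Finset.coe_insert] at hz
              rcases hz with rfl | hz
              · exact IntermediateField.subset_adjoin k _ rfl
              · have h3 : z ∈ k := by
                  rw [hmemk]
                  exact isAlgebraic_algebraMap (R := Q₀) (A := ℂ)
                    (⟨z, IntermediateField.subset_adjoin ℚ _ hz⟩ : Q₀)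
                exact (IntermediateField.adjoin k ({t} : Set ℂ)).algebraMap_mem ⟨z, h3⟩
            exact h2
          exact ⟨⟨(y : ℂ), hle y.2⟩, rfl⟩
        set S : Set ℂ := ((⋃ i, ((f i).coeffs : Set ℂ)) ∪ ⋃ j, ((w j).coeffs : Set ℂ)) ∪
          Set.range a with hS
        have hSf : S.Finite := ((Set.finite_iUnion fun i => (f i).coeffs.finite_toSet).union
          (Set.finite_iUnion fun j => (w j).coeffs.finite_toSet)).union
          (Set.finite_range a)
        have hSa : ∀ c ∈ S, IsAlgebraic (IntermediateField.adjoin k {t}) c := by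
          rintro c ((hc | hc) | ⟨i, rfl⟩)
          · obtain ⟨i, hi⟩ := Set.mem_iUnion.1 hc
            obtain ⟨m, hm⟩ := mem_coeffs_iff.1 hi
            rw [hm.2]
            exact h1 _ (hf1 i m)
          · obtain ⟨i, hi⟩ := Set.mem_iUnion.1 hc
            obtain ⟨m, hm⟩ := mem_coeffs_iff.1 hi
            rw [hm.2]
            exact h1 _ (hw1 i m)
          · exact h1 _ (ha1 i)
        set K := IntermediateField.adjoin k (insert t S) with hKdef
        have hK : IsFunctionField k K := isFunctionField_adjoin htk' hSf hSa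
        have hmem : ∀ c ∈ S, c ∈ K := fun c hc =>
          IntermediateField.subset_adjoin k _ (Set.mem_insert_of_mem _ hc)
        choose F hF using fun i => exists_lift K (p := f i) fun c hc =>
          hmem c (Or.inl (Or.inl (Set.mem_iUnion.2 ⟨i, hc⟩)))
        choose W hW using fun j => exists_lift K (p := w j) fun c hc =>
          hmem c (Or.inl (Or.inr (Set.mem_iUnion.2 ⟨j, hc⟩)))
        let x : Fin (ν + 1) → K := fun i => ⟨a i, hmem _ (Or.inr ⟨i, rfl⟩)⟩
        have hxa : (fun i => algebraMap K ℂ (x i)) = a := rfl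
        have hFf : (fun i => map (algebraMap K ℂ) (F i)) = f := funext hF
        have hWw : (fun j => map (algebraMap K ℂ) (W j)) = w := funext hW
        have hx : x ≠ 0 := by
          intro h
          apply ha
          funext i
          exact congrArg (algebraMap K ℂ) (congrFun h i)
        have hGh : ∀ j, (W (ι j)).IsHomogeneous (e j) := by
          intro j m hm
          refine hg j ?_
          rw [← hW, coeff_map]
          simpa using hm
        have hset : {n | ∀ j, eval (iter f a n) (w (ι j)) = 0} =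
            {n | ∀ j, eval (iter F x n) (W (ι j)) = 0} := by
          ext n
          refine forall_congr' fun j => ?_
          rw [← eval_iter_map F x (W (ι j)) n, hFf, hxa, hW]
        rw [hset]
        have hFe : IsEndo d fun i => map (algebraMap K ℂ) (F i) := by rw [hFf]; exact hf
        have hclK : Cl (fun i => map (algebraMap K ℂ) (F i)) (fun j => map (algebraMap K ℂ) (W j))
            (fun i => algebraMap K ℂ (x i)) := by
          rw [hFf, hWw, hxa]
          exact hcl
        by_cases hu : ∀ B : ℤ, ∃ n, B < ht k (iter F x n)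
        · exact hunb k K hK F W x hFe hclK hx hu hGh
        push Not at hu
        obtain ⟨B, hB⟩ := hu
        obtain ⟨A, hA, hAb⟩ := hspec k K hK F W x hFe hclK hx B hB
        obtain ⟨κ, hκ, b, φ, z, ω, hall, hiff⟩ := exists_specialisationsN hK hFe hx B hB ι e W
          hGh A hA
        have hone : ∀ s : κ, R {n | ∀ j, eval (iter (φ s) (z s) n) (ω s (ι j)) = 0} := by
          intro s
          obtain ⟨hb, hgr, hred, hω⟩ := hall s
          have hcl' := hAb (b s) hb (φ s) (ω s) (z s) hgr hω hred
          have halgk : ∀ c : k, IsAlgebraic Q₀ (algebraMap k ℂ c) := fun c =>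
            (hmemk _).1 c.2
          have h5 := ih (fun i => map (algebraMap k ℂ) (φ s i))
            (fun j => map (algebraMap k ℂ) (ω s j)) (fun i => algebraMap k ℂ (z s i))
            (fun i m => by rw [coeff_map]; exact halgk _)
            (fun j m => by rw [coeff_map]; exact halgk _)
            (fun i => halgk _)
            hgr.endo.map hcl' (by
              intro h
              apply hred.1
              funext i
              exact (algebraMap k ℂ).injective ((congrFun h i).trans (map_zero _).symm))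
            (fun j => (redP_hom (hω (ι j)) (hGh j)).map _)
          have h6 : {n | ∀ j, eval (iter (fun i => map (algebraMap k ℂ) (φ s i))
              (fun i => algebraMap k ℂ (z s i)) n) (map (algebraMap k ℂ) (ω s (ι j))) = 0} =
              {n | ∀ j, eval (iter (φ s) (z s) n) (ω s (ι j)) = 0} := by
            ext n
            exact forall_congr' fun j => eval_iter_map (φ s) (z s) (ω s (ι j)) n
          rwa [h6] at h5
        have h7 : {n | ∀ j, eval (iter F x n) (W (ι j)) = 0} =
            ⋂ s : κ, {n | ∀ j, eval (iter (φ s) (z s) n) (ω s (ι j)) = 0} := by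
          ext n
          rw [Set.mem_iInter]
          exact hiff n
        rw [h7]
        exact iInter_closed hRu hRi _ hone
  -- the finite set of all the coefficients
  set s : Finset ℂ := ((Finset.univ.biUnion fun i => (f i).coeffs) ∪
    (Finset.univ.biUnion fun j => (w j).coeffs)) ∪ Finset.univ.image a with hs
  have hmem : ∀ c ∈ s, IsAlgebraic (IntermediateField.adjoin ℚ (s : Set ℂ)) c := fun c hc =>
    isAlgebraic_algebraMap (R := IntermediateField.adjoin ℚ (s : Set ℂ)) (A := ℂ)
      (⟨c, IntermediateField.subset_adjoin ℚ _ hc⟩ : IntermediateField.adjoin ℚ (s : Set ℂ))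
  have hcoef : ∀ p : MvPolynomial (Fin (ν + 1)) ℂ, (p.coeffs ⊆ s) → ∀ m,
      IsAlgebraic (IntermediateField.adjoin ℚ (s : Set ℂ)) (p.coeff m) := by
    intro p hp m
    by_cases h0 : p.coeff m = 0
    · rw [h0]
      exact isAlgebraic_zero
    · exact hmem _ (hp (coeff_mem_coeffs m h0))
  refine key s f w a (fun i => hcoef _ ?_) (fun j => hcoef _ ?_) (fun i => hmem _ ?_)
    hf hcl ha hg
  · intro c hc
    exact Finset.mem_union_left _ (Finset.mem_union_left _
      (Finset.mem_biUnion.2 ⟨i, Finset.mem_univ _, hc⟩))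
  · intro c hc
    exact Finset.mem_union_left _ (Finset.mem_union_right _
      (Finset.mem_biUnion.2 ⟨j, Finset.mem_univ _, hc⟩))
  · exact Finset.mem_union_right _ (Finset.mem_image.2 ⟨i, Finset.mem_univ _, rfl⟩)

end Pool.Agent.Helper30.RED
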