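import Pool.Agent.Helper30.RED.SpecData
import Pool.Agent.Helper72.PC.Base
import Pool.Agent.Helper38.PC.FF3
import Pool.Agent.Helper33.GC.Sets

/-!
# Post-critically finite endomorphisms of the plane over the complex numbers
-/

set_option autoImplicit false

namespace Pool.Agent.Helper30.RED

open MvPolynomial
open Pool.Agent.Helper16 (Place IsFunctionField)
open Pool.Agent.Helper36 (step iter iter_zero iter_succ iter_succ' iter_add iter_map APSet
  APSet_univ)
open Pool.Agent.Helper38.TQ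
open Pool.Agent.Helper30.TKN
open Pool.Agent.Helper33.GC (APSet_inter)
open Pool.Agent.Helper38.PC (Data)

/-- The set is a finite union of progressions. -/
def IsAP (T : Set ℕ) : Prop := ∃ A, T = APSet A

theorem isAP_univ : IsAP Set.univ := APSet_univ

theorem IsAP.inter {S T : Set ℕ} (hS : IsAP S) (hT : IsAP T) : IsAP (S ∩ T) := by
  obtain ⟨A, rfl⟩ := hS
  obtain ⟨B, rfl⟩ := hT
  exact APSet_inter A B

/-- From the Dynamical Mordell-Lang property over `ℂ` to return sets over `K`. -/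
theorem isAP_of_dmlgen {K : Type} [Field K] [Algebra K ℂ] {F : Fin 3 → MvPolynomial (Fin 3) K}
    {x : Fin 3 → K}
    (h : Pool.Agent.Helper38.Sym.DMLgen (fun i => map (algebraMap K ℂ) (F i))
      (fun i => 1 * algebraMap K ℂ (x i))) {g : MvPolynomial (Fin 3) K} {e : ℕ}
    (hg : g.IsHomogeneous e) : IsAP {n | eval (iter F x n) g = 0} := by
  obtain ⟨T, hT⟩ := h {map (algebraMap K ℂ) g} (by
      intro p hp
      rw [Set.mem_singleton_iff] at hp
      exact ⟨e, by rw [hp]; exact hg.map _⟩)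
  refine ⟨T, ?_⟩
  have h1 : {n : ℕ | ∃ q ∈ T, ∃ k : ℕ, n = q.1 * k + q.2} = APSet T := rfl
  rw [← h1, ← hT]
  ext n
  simp only [Set.mem_ofPred_eq, Set.mem_singleton_iff, forall_eq]
  have h2 := eval_iter_map (ν := 2) F x g n
  rw [← h2]
  have h3 : (fun i => (1 : ℂ) * algebraMap K ℂ (x i)) = fun i => algebraMap K ℂ (x i) := by
    funext i
    rw [one_mul]
  rw [h3]
  exact Iff.rfl

/-- Over the algebraic numbers. -/
theorem pcf_alg {d D E : ℕ} {f : Fin 3 → MvPolynomial (Fin 3) ℂ}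
    {w : Fin 3 → MvPolynomial (Fin 3) ℂ} {a : Fin 3 → ℂ} {g : MvPolynomial (Fin 3) ℂ} {e : ℕ}
    (hfa : ∀ i m, IsAlgebraic ℚ ((f i).coeff m)) (hwa : ∀ j m, IsAlgebraic ℚ ((w j).coeff m))
    (haa : ∀ i, IsAlgebraic ℚ (a i)) (hga : ∀ m, IsAlgebraic ℚ (g.coeff m))
    (hf : IsEndo (ν := 2) d f) (hD : Data (ν := 2) f D E (w 0) (w 1) (w 2)) (ha : a ≠ 0)
    (hg : g.IsHomogeneous e) : IsAP {n | eval (iter f a n) g = 0} := by
  classical
  let k : IntermediateField ℚ ℂ := algebraicClosure ℚ ℂ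
  haveI halk : Algebra.IsAlgebraic ℚ k := (algebraicClosure.isAlgClosure ℚ ℂ).isAlgebraic
  have hk : ∀ c : ℂ, IsAlgebraic ℚ c → c ∈ k := fun c hc => mem_algebraicClosure_iff.2 hc
  have hlift : ∀ p : MvPolynomial (Fin 3) ℂ, (∀ m, IsAlgebraic ℚ (p.coeff m)) →
      ∃ P : MvPolynomial (Fin 3) k, map (algebraMap k ℂ) P = p := by
    intro p hp
    have h1 : p ∈ Set.range (map (σ := Fin 3) (algebraMap k ℂ)) := by
      rw [mem_range_map_iff_coeffs_subset]
      intro c hc
      obtain ⟨m, hm⟩ := mem_coeffs_iff.1 hc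
      exact ⟨⟨c, hk c (by rw [hm.2]; exact hp m)⟩, rfl⟩
    exact h1
  choose F hF using fun i => hlift (f i) (hfa i)
  choose W hW using fun j => hlift (w j) (hwa j)
  obtain ⟨G, hG⟩ := hlift g hga
  let x : Fin 3 → k := fun i => ⟨a i, hk _ (haa i)⟩
  have hxa : (fun i => algebraMap k ℂ (x i)) = a := rfl
  have hFf : (fun i => map (algebraMap k ℂ) (F i)) = f := funext hF
  have hx : x ≠ 0 := by
    intro h
    apply ha
    funext i
    exact congrArg (algebraMap k ℂ) (congrFun h i)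
  have hGh : G.IsHomogeneous e := hom_of_map (ν := 2) (algebraMap k ℂ) (by rw [hG]; exact hg)
  have hD' : Data (ν := 2) F D E (W 0) (W 1) (W 2) := by
    apply data_of_map (algebraMap k ℂ)
    rw [hFf, hW, hW, hW]
    exact hD
  obtain ⟨m, hm⟩ := hD'.homq
  obtain ⟨m', hm'⟩ := hD'.homc
  have hP : Pool.Agent.Helper72.PC.PCFdata F (W 0) (W 1) (W 2) D m m' E :=
    ⟨hD'.ne, hD'.hom, hm, hm', hD'.comp, hD'.dvd.symm⟩
  have hFe : Pool.Agent.Helper30.TP.IsEndo d fun i => map (algebraMap k ℂ) (F i) := by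
    rw [hFf]
    exact ⟨hf.two_le, hf.hom, hf.nz⟩
  have h1 := isAP_of_dmlgen (Pool.Agent.Helper72.PC.base hFe hP hx 1 one_ne_zero) hGh
  have h2 : {n | eval (iter f a n) g = 0} = {n | eval (iter F x n) G = 0} := by
    ext n
    change eval (iter f a n) g = 0 ↔ eval (iter F x n) G = 0
    rw [← eval_iter_map (ν := 2) F x G n, hFf, hxa, hG]
  rw [h2]
  exact h1

/-- **The Dynamical Mordell-Lang property for post-critically finite endomorphisms of the
projective plane over the complex numbers**, algebraic form. -/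
theorem data_dml {d D E : ℕ} {f : Fin 3 → MvPolynomial (Fin 3) ℂ}
    (hf : IsEndo (ν := 2) d f) {g q c : MvPolynomial (Fin 3) ℂ}
    (hD : Data (ν := 2) f D E g q c) {a : Fin 3 → ℂ} (ha : a ≠ 0) :
    Pool.Agent.Helper38.Sym.DMLgen f a := by
  intro S hS
  have key : ∀ (h : MvPolynomial (Fin 3) ℂ) (m : ℕ), h.IsHomogeneous m →
      IsAP {n | eval (iter f a n) h = 0} := by
    intro h m hm
    refine induct (ν := 2) (d := d) (N := 3)
      (fun f w => Data (ν := 2) f D E (w 0) (w 1) (w 2)) IsAP isAP_univ (fun S T => IsAP.inter)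
      ?_ ?_ ?_ f ![g, q, c] a h m hf hD ha hm
    · intro k _ _ _ K hK F W hF hcl
      obtain ⟨A, hA, hA2⟩ := data_spec (ν := 2) hK (data_of_map (algebraMap K ℂ) hcl)
      exact ⟨A, hA, fun b hb f w hgr hw =>
        data_map (algebraMap k ℂ) (hA2 b hb f _ _ _ hgr.red (hw 0) (hw 1) (hw 2))⟩
    · intro k _ _ _ K hK F W x g e hF hcl hx hunb hg
      exact isAP_of_dmlgen (Pool.Agent.Helper38.PC.dml_plane_unbounded hK hF
        (data_of_map (algebraMap K ℂ) hcl) hx hunb 1 one_ne_zero) hg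
    · intro f w a g e hfa hwa haa hga hf hcl ha hg
      exact pcf_alg hfa hwa haa hga hf hcl ha hg
  obtain ⟨A, hA⟩ := closed_of_forms (ν := 2) IsAP isAP_univ (fun S T => IsAP.inter) key hS
  exact ⟨A, hA⟩

/-- The same for the data of `Helper72.PC`. -/
theorem pcf_dml {d : ℕ} {f : Fin 3 → MvPolynomial (Fin 3) ℂ}
    (hf : Pool.Agent.Helper30.TP.IsEndo d f) {g q c : MvPolynomial (Fin 3) ℂ} {D e t E : ℕ}
    (hP : Pool.Agent.Helper72.PC.PCFdata f g q c D e t E) {a : Fin 3 → ℂ} (ha : a ≠ 0) :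
    Pool.Agent.Helper38.Sym.DMLgen f a :=
  data_dml (D := D) (E := E) (g := g) (q := q) (c := c) ⟨hf.two_le, hf.hom, hf.nz⟩
    ⟨hP.g_hom, hP.g_ne, hP.comp, hP.crit.symm, ⟨e, hP.q_hom⟩, ⟨t, hP.c_hom⟩⟩ ha

end Pool.Agent.Helper30.RED
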