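import Pool.Agent.Helper30.RED.Induct
import Pool.Agent.Helper38.PC.Defs

/-!
# Specialisation of the algebraic data of a post-critically finite map
-/

set_option autoImplicit false

namespace Pool.Agent.Helper30.RED

open MvPolynomial
open Pool.Agent.Helper16 (Place IsFunctionField)
open Pool.Agent.Helper36 (step iter iter_zero iter_succ iter_succ' iter_add iter_map)
open Pool.Agent.Helper38.TQ
open Pool.Agent.Helper30.TKN
open Pool.Agent.Helper38.PC (Data)

variable {ν : ℕ} {k K : Type} [Field k] [Field K] [Algebra k K]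

theorem redP_C {b : Place k K} {A : K} {a : k} (h : b.val (A - algebraMap k K a) < 1) :
    RedP (ν := ν) b (C A) (C a) := by
  classical
  intro m
  rw [coeff_C, coeff_C]
  split_ifs with h0
  · exact h
  · rw [map_zero, sub_zero, map_zero]
    exact zero_lt_one

/-- Composition specialises. -/
theorem redP_aeval {b : Place k K} {P : MvPolynomial (Fin (ν + 1)) K}
    {p : MvPolynomial (Fin (ν + 1)) k} (hP : RedP b P p)
    {F : Fin (ν + 1) → MvPolynomial (Fin (ν + 1)) K}
    {f : Fin (ν + 1) → MvPolynomial (Fin (ν + 1)) k} (hF : ∀ i, RedP b (F i) (f i)) :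
    RedP b (MvPolynomial.aeval F P) (MvPolynomial.aeval f p) := by
  classical
  have h1 : MvPolynomial.aeval F P = ∑ m ∈ P.support ∪ p.support,
      C (P.coeff m) * ∏ i, F i ^ m i := by
    have h2 : P = ∑ m ∈ P.support ∪ p.support, monomial m (P.coeff m) := by
      conv_lhs => rw [← P.support_sum_monomial_coeff]
      refine Finset.sum_subset Finset.subset_union_left ?_
      intro m _ hm
      rw [notMem_support_iff.1 hm, monomial_zero]
    conv_lhs => rw [h2]
    rw [map_sum]
    refine Finset.sum_congr rfl fun m _ => ?_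
    rw [aeval_monomial, Finsupp.prod_fintype _ _ fun i => pow_zero _]
    rfl
  have h3 : MvPolynomial.aeval f p = ∑ m ∈ P.support ∪ p.support,
      C (p.coeff m) * ∏ i, f i ^ m i := by
    have h2 : p = ∑ m ∈ P.support ∪ p.support, monomial m (p.coeff m) := by
      conv_lhs => rw [← p.support_sum_monomial_coeff]
      refine Finset.sum_subset Finset.subset_union_right ?_
      intro m _ hm
      rw [notMem_support_iff.1 hm, monomial_zero]
    conv_lhs => rw [h2]
    rw [map_sum]
    refine Finset.sum_congr rfl fun m _ => ?_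
    rw [aeval_monomial, Finsupp.prod_fintype _ _ fun i => pow_zero _]
    rfl
  rw [h1, h3]
  refine RedP.sum _ fun m _ => (redP_C (hP m)).mul (RedP.prod _ fun i _ => (hF i).pow _)

/-- Specialisations of homogeneous polynomials are homogeneous. -/
theorem redP_hom {b : Place k K} {P : MvPolynomial (Fin (ν + 1)) K}
    {p : MvPolynomial (Fin (ν + 1)) k} (hP : RedP b P p) {e : ℕ} (he : P.IsHomogeneous e) :
    p.IsHomogeneous e := by
  intro m hm
  refine he ?_
  intro h0
  have h1 := hP m
  rw [h0, zero_sub, Valuation.map_neg, b.triv _ hm] at h1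
  exact lt_irrefl _ h1

/-- Specialisations outside a finite set of places do not vanish. -/
theorem exists_ne_zero [IsAlgClosed k] (hK : IsFunctionField k K)
    {P : MvPolynomial (Fin (ν + 1)) K} (hP : P ≠ 0) :
    ∃ A : Set (Place k K), A.Finite ∧ ∀ b ∉ A, ∀ p, RedP b P p → p ≠ 0 := by
  obtain ⟨m, hm⟩ := ne_zero_iff.1 hP
  refine ⟨Function.support fun b : Place k K => WithZero.log (b.val (P.coeff m)),
    (finsum_log hK _ hm).1, ?_⟩
  rintro b hb p hp rfl
  apply hb
  intro h0
  have h0' : WithZero.log (b.val (P.coeff m)) = 0 := h0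
  have h1 := hp m
  rw [coeff_zero, map_zero, sub_zero] at h1
  have h2 := (WithZero.log_lt_log ((map_ne_zero b.val).2 hm) one_ne_zero).2 h1
  rw [WithZero.log_one, h0'] at h2
  exact lt_irrefl _ h2

theorem map_jf' {R S : Type} [Field R] [Field S] (φ : R →+* S)
    (F : Fin (ν + 1) → MvPolynomial (Fin (ν + 1)) R) :
    jf (fun i => map φ (F i)) = map φ (jf F) := by
  unfold jf
  rw [RingHom.map_det]
  congr 1
  ext1 i j
  rw [RingHom.mapMatrix_apply, Matrix.map_apply, Matrix.of_apply, Matrix.of_apply, pderiv_map]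

theorem map_comp' {R S : Type} [Field R] [Field S] (φ : R →+* S)
    (F : Fin (ν + 1) → MvPolynomial (Fin (ν + 1)) R) (g : MvPolynomial (Fin (ν + 1)) R) :
    map φ (MvPolynomial.aeval F g) = MvPolynomial.aeval (fun i => map φ (F i)) (map φ g) := by
  induction g using MvPolynomial.induction_on with
  | C a => simp
  | add p q hp hq => simp only [map_add, hp, hq]
  | mul_X p i hp => simp only [map_mul, hp, aeval_X, map_X]

theorem hom_of_map {R S : Type} [Field R] [Field S] (φ : R →+* S)
    {P : MvPolynomial (Fin (ν + 1)) R} {n : ℕ} (h : (map φ P).IsHomogeneous n) :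
    P.IsHomogeneous n := by
  intro m hm
  apply h
  rw [coeff_map]
  exact (map_ne_zero φ).2 hm

theorem data_map {R S : Type} [Field R] [Field S] (φ : R →+* S)
    {F : Fin (ν + 1) → MvPolynomial (Fin (ν + 1)) R} {e E : ℕ}
    {g q c : MvPolynomial (Fin (ν + 1)) R} (h : Data F e E g q c) :
    Data (fun i => map φ (F i)) e E (map φ g) (map φ q) (map φ c) := by
  obtain ⟨m, hm⟩ := h.homq
  obtain ⟨m', hm'⟩ := h.homc
  refine ⟨h.hom.map _, ?_, ?_, ?_, ⟨m, hm.map _⟩, ⟨m', hm'.map _⟩⟩
  · intro h0
    exact h.ne (map_injective φ φ.injective (h0.trans (map_zero _).symm))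
  · rw [← map_comp', h.comp, map_mul]
  · rw [map_jf', ← map_mul, h.dvd, map_pow]

theorem data_of_map {R S : Type} [Field R] [Field S] (φ : R →+* S)
    {F : Fin (ν + 1) → MvPolynomial (Fin (ν + 1)) R} {e E : ℕ}
    {g q c : MvPolynomial (Fin (ν + 1)) R}
    (h : Data (fun i => map φ (F i)) e E (map φ g) (map φ q) (map φ c)) :
    Data F e E g q c := by
  obtain ⟨m, hm⟩ := h.homq
  obtain ⟨m', hm'⟩ := h.homc
  refine ⟨hom_of_map φ h.hom, ?_, ?_, ?_, ⟨m, hom_of_map φ hm⟩, ⟨m', hom_of_map φ hm'⟩⟩
  · rintro rfl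
    exact h.ne (map_zero _)
  · apply map_injective φ φ.injective
    rw [map_comp', h.comp, map_mul]
  · apply map_injective φ φ.injective
    rw [map_mul, ← map_jf', h.dvd, map_pow]

/-- The data specialise outside a finite set of places. -/
theorem data_spec [IsAlgClosed k] (hK : IsFunctionField k K)
    {F : Fin (ν + 1) → MvPolynomial (Fin (ν + 1)) K} {e E : ℕ}
    {g q c : MvPolynomial (Fin (ν + 1)) K} (h : Data F e E g q c) :
    ∃ A : Set (Place k K), A.Finite ∧ ∀ b ∉ A, ∀ (f : Fin (ν + 1) → MvPolynomial (Fin (ν + 1)) k)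
      (g' q' c' : MvPolynomial (Fin (ν + 1)) k), (∀ i, RedP b (F i) (f i)) → RedP b g g' →
        RedP b q q' → RedP b c c' → Data f e E g' q' c' := by
  obtain ⟨A, hA, hA2⟩ := exists_ne_zero hK h.ne
  obtain ⟨m, hm⟩ := h.homq
  obtain ⟨m', hm'⟩ := h.homc
  refine ⟨A, hA, fun b hb f g' q' c' hf hg hq hc => ⟨redP_hom hg h.hom, hA2 b hb _ hg, ?_, ?_,
    ⟨m, redP_hom hq hm⟩, ⟨m', redP_hom hc hm'⟩⟩⟩
  · refine RedP.unique (P := MvPolynomial.aeval F g) (redP_aeval hg hf) ?_
    rw [h.comp]
    exact hg.mul hq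
  · refine RedP.unique (P := jf F * c) ((redP_jf hf).mul hc) ?_
    rw [h.dvd]
    exact hq.pow _

end Pool.Agent.Helper30.RED
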