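import Pool.Agent.Helper38.TQK.Good2
import Pool.Agent.Helper38.TQ.Minor

/-!
# Orbits of bounded height over a function field: reduction to specialisations
-/

set_option autoImplicit false

namespace Pool.Agent.Helper30.RED

open MvPolynomial
open Pool.Agent.Helper16 (Place IsFunctionField)
open Pool.Agent.Helper36 (step iter iter_zero iter_succ iter_succ' iter_add iter_map)
open Pool.Agent.Helper38.TQ
open Pool.Agent.Helper30.TKN

variable {ν : ℕ} {k K : Type} [Field k] [IsAlgClosed k] [Field K] [Algebra k K]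

/-- A function field has infinitely many places. -/
theorem infinite_places (hK : IsFunctionField k K) : Infinite (Place k K) := by
  obtain ⟨t, ht⟩ : ∃ t : K, Transcendental k t := by
    have h1 : Algebra.trdeg k K ≠ 0 := by rw [hK.2]; exact one_ne_zero
    rw [trdeg_ne_zero_iff] at h1
    exact h1.transcendental
  have h1 : ∀ c : k, ∃ b : Place k K, b.val (t - algebraMap k K c) < 1 := by
    intro c
    have h2 : Transcendental k (t - algebraMap k K c) := by
      intro h
      apply ht
      have h3 := h.add (isAlgebraic_algebraMap (R := k) (A := K) c)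
      rwa [sub_add_cancel] at h3
    obtain ⟨S, hS, hsum, hpos⟩ := hK.zeros _ h2
    have hne : S.Nonempty := by
      rw [Finset.nonempty_iff_ne_empty]
      rintro rfl
      rw [Finset.sum_empty] at hsum
      omega
    obtain ⟨b, hb⟩ := hne
    exact ⟨b, (hS b).1 hb⟩
  choose b hb using h1
  have hinj : Function.Injective b := by
    intro c c' hcc
    by_contra hne
    have h3 := hb c'
    rw [← hcc] at h3
    have h4 : (b c).val (algebraMap k K (c' - c)) < 1 := by
      have h5 : algebraMap k K (c' - c) = (t - algebraMap k K c) - (t - algebraMap k K c') := by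
        rw [map_sub]; ring
      rw [h5]
      exact ((b c).val.map_sub _ _).trans_lt (max_lt (hb c) h3)
    rw [(b c).triv _ (sub_ne_zero.2 (Ne.symm hne))] at h4
    exact lt_irrefl _ h4
  haveI : Infinite k := IsAlgClosed.instInfinite
  exact Infinite.of_injective b hinj

/-- A nonzero value of a form vanishes at few places. -/
theorem card_zeros_le (hK : IsFunctionField k K) {g : MvPolynomial (Fin (ν + 1)) K} {e : ℕ}
    (hg : g.IsHomogeneous e) (hg0 : g ≠ 0) {y : Fin (ν + 1) → K} (hy0 : y ≠ 0)
    (hy : eval y g ≠ 0) (T : Finset (Place k K))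
    (hT : ∀ b ∈ T, b.val (eval y g) < nrm b y ^ e ∧ WithZero.log (gs b g) = 0) :
    (T.card : ℤ) ≤ e * ht k y + ∑ᶠ b : Place k K, WithZero.log (gs b g) := by
  classical
  have h1 := nrm_support hK y hy0
  obtain ⟨h2, h3⟩ := finsum_log hK _ hy
  have h5 := formHeight_support hK hg0
  have h4 : (Function.support fun b : Place k K =>
      (e : ℤ) * WithZero.log (nrm b y)).Finite := by
    refine h1.subset ?_
    intro b hb h
    apply hb
    have h' : WithZero.log (nrm b y) = 0 := h
    show (e : ℤ) * WithZero.log (nrm b y) = 0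
    rw [h', mul_zero]
  have h6 : (Function.support fun b : Place k K =>
      (e : ℤ) * WithZero.log (nrm b y) + WithZero.log (gs b g)).Finite :=
    (h4.union h5).subset (Function.support_add _ _)
  have h7 : (Function.support fun b : Place k K =>
      (e : ℤ) * WithZero.log (nrm b y) + WithZero.log (gs b g) -
        WithZero.log (b.val (eval y g))).Finite :=
    (h6.union h2).subset (Function.support_sub _ _)
  have hsum : ∑ᶠ b : Place k K, ((e : ℤ) * WithZero.log (nrm b y) + WithZero.log (gs b g) -
      WithZero.log (b.val (eval y g))) = e * ht k y +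
        ∑ᶠ b : Place k K, WithZero.log (gs b g) := by
    unfold ht
    rw [finsum_sub_distrib h6 h2, h3, sub_zero, finsum_add_distrib h4 h5, mul_finsum]
  have hnn : ∀ b : Place k K, 0 ≤ (e : ℤ) * WithZero.log (nrm b y) + WithZero.log (gs b g) -
      WithZero.log (b.val (eval y g)) := by
    intro b
    have h0 : b.val (eval y g) ≠ 0 := (map_ne_zero b.val).2 hy
    have h1 := low_val_eval_le b hg y
    have h3 : gs b g * nrm b y ^ e ≠ 0 := by
      intro h
      rw [h, le_zero_iff] at h1
      exact h0 h1
    have h2 := (WithZero.log_le_log h0 h3).2 h1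
    rw [WithZero.log_mul (left_ne_zero_of_mul h3) (right_ne_zero_of_mul h3), WithZero.log_pow,
      nsmul_eq_mul] at h2
    linarith
  have hone : ∀ b ∈ T, 1 ≤ (e : ℤ) * WithZero.log (nrm b y) + WithZero.log (gs b g) -
      WithZero.log (b.val (eval y g)) := by
    intro b hb
    obtain ⟨hb1, hb2⟩ := hT b hb
    have h0 : b.val (eval y g) ≠ 0 := (map_ne_zero b.val).2 hy
    have hn : nrm b y ≠ 0 := nrm_ne_zero hy0
    have h3 := (WithZero.log_lt_log h0 (pow_ne_zero e hn)).2 hb1
    rw [WithZero.log_pow, nsmul_eq_mul] at h3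
    rw [hb2]
    omega
  rw [← hsum, finsum_eq_sum_of_support_subset (s := h7.toFinset ∪ T) _ (by
    rw [Finset.coe_union, Set.Finite.coe_toFinset]
    exact Set.subset_union_left)]
  calc (T.card : ℤ) = ∑ b ∈ T, (1 : ℤ) := by simp
    _ ≤ ∑ b ∈ T, ((e : ℤ) * WithZero.log (nrm b y) + WithZero.log (gs b g) -
          WithZero.log (b.val (eval y g))) := Finset.sum_le_sum hone
    _ ≤ _ := Finset.sum_le_sum_of_subset_of_nonneg Finset.subset_union_right
        fun b _ _ => hnn b

/-- The reduction of the value vanishes exactly if the value is small. -/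
theorem red_eval_iff {b : Place k K} {g : MvPolynomial (Fin (ν + 1)) K} {e : ℕ}
    (hg : g.IsHomogeneous e) {γ : MvPolynomial (Fin (ν + 1)) k} (hγ : RedP b g γ)
    {y : Fin (ν + 1) → K} {w : Fin (ν + 1) → k} (hy : Red b y w) :
    eval w γ = 0 ↔ b.val (eval y g) < nrm b y ^ e := by
  obtain ⟨hw, c, hc, h1⟩ := hy
  have hy0 : y ≠ 0 := by
    rintro rfl
    apply hw
    funext i
    by_contra h
    have h2 := h1 i
    rw [Pi.zero_apply, mul_zero, zero_sub, Valuation.map_neg, b.triv _ h] at h2
    exact lt_irrefl _ h2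
  have hn : nrm b (c • y) = 1 := nrm_red hw h1
  have h2 := hγ.eval (u := c • y) (z := w) h1
  rw [eval_smul_hom hg] at h2
  have hc' : b.val c ≠ 0 := (map_ne_zero b.val).2 hc
  have hn' : b.val c * nrm b y = 1 := by rw [← nrm_smul, hn]
  have hny : nrm b y = (b.val c)⁻¹ := eq_inv_of_mul_eq_one_right hn'
  have hiff : b.val (eval y g) < nrm b y ^ e ↔ b.val (c ^ e * eval y g) < 1 := by
    rw [hny, map_mul, map_pow, inv_pow, mul_comm, ← lt_mul_inv_iff₀ (zero_lt_iff.2
      (pow_ne_zero e hc')), one_mul]
  rw [hiff]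
  constructor
  · intro h
    rwa [h, map_zero, sub_zero] at h2
  · intro h
    by_contra hne
    have h3 : b.val (algebraMap k K (eval w γ)) < 1 := by
      have h4 : algebraMap k K (eval w γ) = c ^ e * eval y g -
          (c ^ e * eval y g - algebraMap k K (eval w γ)) := by ring
      rw [h4]
      exact (b.val.map_sub _ _).trans_lt (max_lt h h2)
    rw [b.triv _ hne] at h3
    exact lt_irrefl _ h3

/-- If the heights of the points of an orbit are bounded, then the return set to a hypersurface is
a finite intersection of return sets of specialisations. -/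
theorem exists_specialisations [Algebra K ℂ] (hK : IsFunctionField k K) {d : ℕ}
    {F : Fin (ν + 1) → MvPolynomial (Fin (ν + 1)) K}
    (hF : IsEndo d fun i => map (algebraMap K ℂ) (F i)) {x : Fin (ν + 1) → K} (hx : x ≠ 0)
    (B : ℤ) (hB : ∀ n, ht k (iter F x n) ≤ B) {g : MvPolynomial (Fin (ν + 1)) K} {e : ℕ}
    (hg : g.IsHomogeneous e) (hg0 : g ≠ 0) (A : Set (Place k K)) (hA : A.Finite) :
    ∃ (r : ℕ) (b : Fin r → Place k K) (f : Fin r → Fin (ν + 1) → MvPolynomial (Fin (ν + 1)) k)
      (z : Fin r → Fin (ν + 1) → k) (γ : Fin r → MvPolynomial (Fin (ν + 1)) k),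
      (∀ s, b s ∉ A ∧ GoodRed d (b s) F (f s) ∧ Red (b s) x (z s) ∧ RedP (b s) g (γ s) ∧
        (γ s).IsHomogeneous e) ∧
      ∀ n, eval (iter F x n) g = 0 ↔ ∀ s, eval (iter (f s) (z s) n) (γ s) = 0 := by
  classical
  have hhom : ∀ i, (F i).IsHomogeneous d := by
    intro i m hm
    refine hF.hom i ?_
    rw [coeff_map]
    simpa using hm
  haveI := infinite_places hK
  set H : ℤ := ∑ᶠ b : Place k K, WithZero.log (gs b g) with hH
  set bad : Set (Place k K) := A ∪ {b | ¬ Good d b F} ∪
    {b | WithZero.log (gs b g) ≠ 0} with hbad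
  have hbadfin : bad.Finite := (hA.union (good_finite hK hF)).union (formHeight_support hK hg0)
  have hinf : (badᶜ).Infinite := hbadfin.infinite_compl
  set r : ℕ := (e * B + H).toNat + 1 with hr
  obtain ⟨T, hT, hTc⟩ := hinf.exists_subset_card_eq r
  let ι := T.equivFin
  have hTr : T.card = r := hTc
  let b : Fin r → Place k K := fun s => ((T.equivFinOfCardEq hTr).symm s : Place k K)
  have hbT : ∀ s, b s ∈ T := fun s => ((T.equivFinOfCardEq hTr).symm s).2
  have hbinj : Function.Injective b := by
    intro s s' h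
    exact (T.equivFinOfCardEq hTr).symm.injective (Subtype.ext h)
  have hnb : ∀ s, b s ∉ bad := fun s => hT (hbT s)
  have hgood : ∀ s, Good d (b s) F := by
    intro s
    by_contra h
    exact hnb s (Or.inl (Or.inr h))
  have hlog : ∀ s, WithZero.log (gs (b s) g) = 0 := by
    intro s
    by_contra h
    exact hnb s (Or.inr h)
  have hint : ∀ s m, (b s).val (g.coeff m) ≤ 1 := by
    intro s m
    have h1 : 0 < gs (b s) g := formHeight_pos hg0
    have h3 : gs (b s) g ≤ 1 := by
      by_contra hcon
      rw [not_le] at hcon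
      have h4 := (WithZero.log_lt_log one_ne_zero h1.ne').2 hcon
      rw [WithZero.log_one, hlog s] at h4
      exact lt_irrefl _ h4
    exact (formHeight_le (b s) g m).trans h3
  choose f hf using hgood
  choose z hz using fun s => exists_red hK (b s) x hx
  choose γ hγ1 hγ2 using fun s => redP_exists hK (b s) hg (hint s)
  refine ⟨r, b, f, z, γ, fun s => ⟨fun h => hnb s (Or.inl (Or.inl h)), hf s, hz s, hγ1 s,
    hγ2 s⟩, fun n => ?_⟩
  have hred : ∀ s, Red (b s) (iter F x n) (iter (f s) (z s) n) := fun s =>
    (hf s).iter hhom (hz s) n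
  have hne : iter F x n ≠ 0 := by
    intro h0
    have hr0 : 0 < r := by omega
    obtain ⟨hw, c, hc, h1⟩ := hred ⟨0, hr0⟩
    apply hw
    funext i
    by_contra h
    have h2 := h1 i
    rw [h0, Pi.zero_apply, mul_zero, zero_sub, Valuation.map_neg, (b ⟨0, hr0⟩).triv _ h] at h2
    exact lt_irrefl _ h2
  constructor
  · intro h0 s
    rw [red_eval_iff hg (hγ1 s) (hred s), h0, map_zero]
    exact zero_lt_iff.2 (pow_ne_zero e (nrm_ne_zero hne))
  · intro hall
    by_contra h0
    have h1 := card_zeros_le hK hg hg0 hne h0 T (by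
      intro b' hb'
      obtain ⟨s, rfl⟩ : ∃ s, b s = b' := by
        refine ⟨T.equivFinOfCardEq hTr ⟨b', hb'⟩, ?_⟩
        change (((T.equivFinOfCardEq hTr).symm (T.equivFinOfCardEq hTr ⟨b', hb'⟩) : T) :
          Place k K) = b'
        rw [Equiv.symm_apply_apply]
      exact ⟨(red_eval_iff hg (hγ1 s) (hred s)).1 (hall s), hlog s⟩)
    rw [hTr, ← hH] at h1
    have h2 : (e : ℤ) * ht k (iter F x n) ≤ e * B :=
      mul_le_mul_of_nonneg_left (hB n) (Int.natCast_nonneg e)
    have h3 := Int.self_le_toNat (e * B + H)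
    have h4 : (r : ℤ) = ((e * B + H).toNat : ℤ) + 1 := by rw [hr]; push_cast; ring
    omega

end Pool.Agent.Helper30.RED
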